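import Pool.Agent.H122R2.N6.Defs

set_option autoImplicit false

namespace Pool.Agent.H122R2.N6

/-- number of the first two bits that are set in the two codes -/
def kk (i j : ℕ) : ℕ := Nat.add (Nat.add (Nat.mod i 2) (Nat.mod (Nat.shiftRight i 1) 2))
  (Nat.add (Nat.mod j 2) (Nat.mod (Nat.shiftRight j 1) 2))

end Pool.Agent.H122R2.N6
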