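import Pool.Agent.H122R2.N6.Bound
import Pool.Agent.H122R2.N6.KK

set_option autoImplicit false
set_option maxRecDepth 100000
set_option maxHeartbeats 4000000
open Finset

namespace Pool.Agent.H122R2.N6

theorem half_cd {x y z w : ℕ} (hx : Bt x) (hy : Bt y) (hz : Bt z) (hw : Bt w) :
    Nat.add (Nat.mod (cd4 x y z w) 2) (Nat.mod (Nat.shiftRight (cd4 x y z w) 1) 2) = x + y := by
  rcases hx with rfl | rfl <;> rcases hy with rfl | rfl <;> rcases hz with rfl | rfl <;>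
    rcases hw with rfl | rfl <;> rfl

section
variable {V : Type} [Fintype V] (E : V → V → V → ℕ)

/-- the objective: a function of the number of edges at a pair -/
def T2 (t : ℕ → ℤ) : ℤ :=
  ∑ a, ∑ b, ∑ c, ∑ d, ∑ e, ∑ f, t (E a b c + E a b d + (E a b e + E a b f))

theorem lower2t (hE : Sy E) (K : ℕ) (q2 : ℕ → ℕ → ℕ) (W : ℕ → ℕ) (l : ℕ → ℕ → ℕ) (B O2 : ℤ)
    (t : ℕ → ℤ)
    (hq2 : ∀ i j, i < 16 → j < 16 → (q2 i j : ℤ) =
      ∑ k ∈ range K, (W k : ℤ) * ((l i k : ℤ) - B) * ((l j k : ℤ) - B) + (O2 + t (kk i j))) :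
    O2 * (Fintype.card V : ℤ) ^ 6 + T2 E t
      ≤ ∑ x : Fin 6 → V, (F2 E q2 (x 0) (x 1) (x 2) (x 3) (x 4) (x 5) : ℤ) := by
  rw [conv6 (fun a b c d e f => (F2 E q2 a b c d e f : ℤ))]
  have e1 : O2 * (Fintype.card V : ℤ) ^ 6 + T2 E t
      = ∑ a : V, ∑ b : V, ∑ c : V, ∑ d : V, ∑ e : V, ∑ f : V,
        (O2 + t (E a b c + E a b d + (E a b e + E a b f))) := by
    unfold T2
    simp only [sum_add_distrib, sum_const, card_univ, nsmul_eq_mul]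
    ring
  rw [e1]
  refine sum_le_sum fun a _ => sum_le_sum fun b _ => ?_
  have e2 : ∀ c d e f : V, (F2 E q2 a b c d e f : ℤ) =
      ∑ k ∈ range K, (W k : ℤ) *
        ((l (cd4 (E a b c) (E a b d) (E a c d) (E b c d)) k : ℤ) - B) *
        ((l (cd4 (E a b e) (E a b f) (E a e f) (E b e f)) k : ℤ) - B)
      + (O2 + t (E a b c + E a b d + (E a b e + E a b f))) := fun c d e f => by
    have h := hq2 _ _ (cd4_lt (hE.b a b c) (hE.b a b d) (hE.b a c d) (hE.b b c d))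
      (cd4_lt (hE.b a b e) (hE.b a b f) (hE.b a e f) (hE.b b e f))
    have hk : kk (cd4 (E a b c) (E a b d) (E a c d) (E b c d))
        (cd4 (E a b e) (E a b f) (E a e f) (E b e f)) = E a b c + E a b d + (E a b e + E a b f) := by
      unfold kk
      rw [half_cd (hE.b a b c) (hE.b a b d) (hE.b a c d) (hE.b b c d),
        half_cd (hE.b a b e) (hE.b a b f) (hE.b a e f) (hE.b b e f)]
      rfl
    rw [hk] at h
    exact h
  have p := psd (ι := V × V) K W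
    (fun k q => (l (cd4 (E a b q.1) (E a b q.2) (E a q.1 q.2) (E b q.1 q.2)) k : ℤ) - B)
  simp only [Fintype.sum_prod_type] at p
  have e3 : ∑ c : V, ∑ d : V, ∑ e : V, ∑ f : V, (F2 E q2 a b c d e f : ℤ) =
      (∑ c : V, ∑ d : V, ∑ e : V, ∑ f : V, ∑ k ∈ range K, (W k : ℤ) *
        ((l (cd4 (E a b c) (E a b d) (E a c d) (E b c d)) k : ℤ) - B) *
        ((l (cd4 (E a b e) (E a b f) (E a e f) (E b e f)) k : ℤ) - B)) +
      ∑ c : V, ∑ d : V, ∑ e : V, ∑ f : V, (O2 + t (E a b c + E a b d + (E a b e + E a b f))) := by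
    simp only [← sum_add_distrib]
    exact sum_congr rfl fun c _ => sum_congr rfl fun d _ => sum_congr rfl fun e _ =>
      sum_congr rfl fun f _ => e2 c d e f
  rw [e3]
  linarith

theorem bound2 (hE : Sy E) (K K2 C : ℕ) (q4 : ℕ → ℕ → ℕ → ℕ) (W : ℕ → ℕ → ℕ) (l : ℕ → ℕ → ℕ → ℕ)
    (q2 : ℕ → ℕ → ℕ) (W2 : ℕ → ℕ) (l2 : ℕ → ℕ → ℕ) (B O4 O2 : ℤ) (t : ℕ → ℤ)
    (hq4 : ∀ c i j, c < 16 → i < 64 → j < 64 → (q4 c i j : ℤ) =
      ∑ k ∈ range K, (W c k : ℤ) * ((l c i k : ℤ) - B) * ((l c j k : ℤ) - B) + O4)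
    (hq2 : ∀ i j, i < 16 → j < 16 → (q2 i j : ℤ) =
      ∑ k ∈ range K2, (W2 k : ℤ) * ((l2 i k : ℤ) - B) * ((l2 j k : ℤ) - B) + (O2 + t (kk i j)))
    (hleaf : ∀ a b c d e f : V, L4 E q4 a b c d e f + L2 E q2 a b c d e f ≤ C) :
    45 * T2 E t + (15 * O4 + 45 * O2) * (Fintype.card V : ℤ) ^ 6
      ≤ C * (Fintype.card V : ℤ) ^ 6 := by
  have A4 := lower4 E hE K q4 W l B O4 (fun _ => 0) (fun c i j hc hi hj => by
    rw [hq4 c i j hc hi hj, add_zero])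
  have hz : Sv E (fun _ => 0) = 0 := by unfold Sv; simp
  rw [hz] at A4
  have A2 := lower2t E hE K2 q2 W2 l2 B O2 t hq2
  have key : ∑ x : Fin 6 → V, ((L4 E q4 (x 0) (x 1) (x 2) (x 3) (x 4) (x 5) : ℤ)
      + (L2 E q2 (x 0) (x 1) (x 2) (x 3) (x 4) (x 5) : ℤ)) ≤ C * (Fintype.card V : ℤ) ^ 6 := by
    calc _ ≤ ∑ x : Fin 6 → V, (C : ℤ) :=
          sum_le_sum fun x _ => by exact_mod_cast hleaf (x 0) (x 1) (x 2) (x 3) (x 4) (x 5)
      _ = C * (Fintype.card V : ℤ) ^ 6 := by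
          rw [sum_const, card_univ, Fintype.card_fun, Fintype.card_fin, nsmul_eq_mul]
          push_cast
          ring
  rw [sum_add_distrib, sumL4 E q4, sumL2 E q2] at key
  linarith

theorem lin (x : V → ℤ) (α β : ℤ) :
    ∑ f, (α + β * x f) = (Fintype.card V : ℤ) * α + β * ∑ f, x f := by
  rw [sum_add_distrib, ← mul_sum]
  simp

theorem mom (x : V → ℕ) (hx : ∀ v, Bt (x v)) (t : ℕ → ℤ) (A0 A1 A2 A3 A4 : ℤ)
    (h0 : t 0 = A0) (h1 : t 1 = A0 + A1) (h2 : t 2 = A0 + 2 * A1 + A2)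
    (h3 : t 3 = A0 + 3 * A1 + 3 * A2 + A3) (h4 : t 4 = A0 + 4 * A1 + 6 * A2 + 4 * A3 + A4) :
    ∑ c, ∑ d, ∑ e, ∑ f, t (x c + x d + (x e + x f)) =
      A0 * (Fintype.card V : ℤ) ^ 4 + 4 * A1 * (Fintype.card V : ℤ) ^ 3 * (∑ c, (x c : ℤ))
      + 6 * A2 * (Fintype.card V : ℤ) ^ 2 * (∑ c, (x c : ℤ)) ^ 2
      + 4 * A3 * (Fintype.card V : ℤ) * (∑ c, (x c : ℤ)) ^ 3 + A4 * (∑ c, (x c : ℤ)) ^ 4 := by
  set D := ∑ c, (x c : ℤ) with hD
  set n := (Fintype.card V : ℤ) with hn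
  have key : ∀ c d e f, t (x c + x d + (x e + x f)) =
      (A0 + A1 * ((x c : ℤ) + x d + x e) + A2 * ((x c : ℤ) * x d + x c * x e + x d * x e)
        + A3 * ((x c : ℤ) * x d * x e))
      + (A1 + A2 * ((x c : ℤ) + x d + x e) + A3 * ((x c : ℤ) * x d + x c * x e + x d * x e)
        + A4 * ((x c : ℤ) * x d * x e)) * (x f : ℤ) := by
    intro c d e f
    rcases hx c with h | h <;> rcases hx d with h' | h' <;> rcases hx e with h'' | h'' <;>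
      rcases hx f with h''' | h''' <;> rw [h, h', h'', h'''] <;>
      simp only [Nat.add_zero, Nat.zero_add, Nat.reduceAdd, h0, h1, h2, h3, h4] <;> push_cast <;> ring
  have s1 : ∀ c d e, ∑ f, t (x c + x d + (x e + x f)) =
      (n * (A0 + A1 * ((x c : ℤ) + x d) + A2 * ((x c : ℤ) * x d))
        + D * (A1 + A2 * ((x c : ℤ) + x d) + A3 * ((x c : ℤ) * x d)))
      + (n * (A1 + A2 * ((x c : ℤ) + x d) + A3 * ((x c : ℤ) * x d))
        + D * (A2 + A3 * ((x c : ℤ) + x d) + A4 * ((x c : ℤ) * x d))) * (x e : ℤ) := by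
    intro c d e
    rw [sum_congr rfl fun f _ => key c d e f, lin (fun f => (x f : ℤ))]
    ring
  have s2 : ∀ c d, ∑ e, ∑ f, t (x c + x d + (x e + x f)) =
      (n ^ 2 * (A0 + A1 * (x c : ℤ)) + 2 * n * D * (A1 + A2 * (x c : ℤ)) + D ^ 2 * (A2 + A3 * (x c : ℤ)))
      + (n ^ 2 * (A1 + A2 * (x c : ℤ)) + 2 * n * D * (A2 + A3 * (x c : ℤ))
        + D ^ 2 * (A3 + A4 * (x c : ℤ))) * (x d : ℤ) := by
    intro c d
    rw [sum_congr rfl fun e _ => s1 c d e, lin (fun f => (x f : ℤ))]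
    ring
  have s3 : ∀ c, ∑ d, ∑ e, ∑ f, t (x c + x d + (x e + x f)) =
      (n ^ 3 * A0 + 3 * n ^ 2 * D * A1 + 3 * n * D ^ 2 * A2 + D ^ 3 * A3)
      + (n ^ 3 * A1 + 3 * n ^ 2 * D * A2 + 3 * n * D ^ 2 * A3 + D ^ 3 * A4) * (x c : ℤ) := by
    intro c
    rw [sum_congr rfl fun d _ => s2 c d, lin (fun f => (x f : ℤ))]
    ring
  rw [sum_congr rfl fun c _ => s3 c, lin (fun f => (x f : ℤ))]
  ring

/-- the functional of a codegree density -/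
noncomputable def ph (u v k d : ℝ) : ℝ :=
  d + (d - 1 / 3) * (d - 2 / 3) * (u + v * d) + k * ((d - 1 / 3) * (d - 2 / 3)) ^ 2

/-- codegree density -/
noncomputable def dn (a b : V) : ℝ := (∑ c, (E a b c : ℝ)) / (Fintype.card V : ℝ)

theorem avg_of (hE : Sy E) (t : ℕ → ℤ) (A0 A1 A2 A3 A4 R : ℤ)
    (h0 : t 0 = A0) (h1 : t 1 = A0 + A1) (h2 : t 2 = A0 + 2 * A1 + A2)
    (h3 : t 3 = A0 + 3 * A1 + 3 * A2 + A3) (h4 : t 4 = A0 + 4 * A1 + 6 * A2 + 4 * A3 + A4)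
    (hb : 45 * T2 E t ≤ R * (Fintype.card V : ℤ) ^ 6) (u v k K : ℝ) (hK : 0 < K)
    (hpoly : ∀ d : ℝ, 45 * ((A0 : ℝ) + 4 * A1 * d + 6 * A2 * d ^ 2 + 4 * A3 * d ^ 3 + A4 * d ^ 4)
      = K * ph u v k d) (hR : (R : ℝ) = K * (5 / 9)) (hn : 0 < Fintype.card V) :
    ∑ a, ∑ b, ph u v k (dn E a b) ≤ 5 / 9 * (Fintype.card V : ℝ) ^ 2 := by
  have hn' : (0 : ℝ) < (Fintype.card V : ℝ) := by exact_mod_cast hn
  have e1 : T2 E t = ∑ a, ∑ b, (A0 * (Fintype.card V : ℤ) ^ 4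
      + 4 * A1 * (Fintype.card V : ℤ) ^ 3 * (∑ c, (E a b c : ℤ))
      + 6 * A2 * (Fintype.card V : ℤ) ^ 2 * (∑ c, (E a b c : ℤ)) ^ 2
      + 4 * A3 * (Fintype.card V : ℤ) * (∑ c, (E a b c : ℤ)) ^ 3 + A4 * (∑ c, (E a b c : ℤ)) ^ 4) := by
    unfold T2
    exact sum_congr rfl fun a _ => sum_congr rfl fun b _ =>
      mom (E a b) (hE.b a b) t A0 A1 A2 A3 A4 h0 h1 h2 h3 h4
  rw [e1] at hb
  have hb' : (45 : ℝ) * ∑ a, ∑ b, ((A0 : ℝ) * (Fintype.card V : ℝ) ^ 4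
      + 4 * A1 * (Fintype.card V : ℝ) ^ 3 * (∑ c, (E a b c : ℝ))
      + 6 * A2 * (Fintype.card V : ℝ) ^ 2 * (∑ c, (E a b c : ℝ)) ^ 2
      + 4 * A3 * (Fintype.card V : ℝ) * (∑ c, (E a b c : ℝ)) ^ 3 + A4 * (∑ c, (E a b c : ℝ)) ^ 4)
      ≤ R * (Fintype.card V : ℝ) ^ 6 := by exact_mod_cast hb
  have e2 : (45 : ℝ) * ∑ a, ∑ b, ((A0 : ℝ) * (Fintype.card V : ℝ) ^ 4
      + 4 * A1 * (Fintype.card V : ℝ) ^ 3 * (∑ c, (E a b c : ℝ))
      + 6 * A2 * (Fintype.card V : ℝ) ^ 2 * (∑ c, (E a b c : ℝ)) ^ 2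
      + 4 * A3 * (Fintype.card V : ℝ) * (∑ c, (E a b c : ℝ)) ^ 3 + A4 * (∑ c, (E a b c : ℝ)) ^ 4)
      = K * (Fintype.card V : ℝ) ^ 4 * ∑ a, ∑ b, ph u v k (dn E a b) := by
    rw [mul_sum, mul_sum]
    refine sum_congr rfl fun a _ => ?_
    rw [mul_sum, mul_sum]
    refine sum_congr rfl fun b _ => ?_
    have e3 : (∑ c, (E a b c : ℝ)) = dn E a b * (Fintype.card V : ℝ) := by
      unfold dn
      field_simp
    rw [e3]
    have e4 := hpoly (dn E a b)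
    calc _ = (Fintype.card V : ℝ) ^ 4 * (45 * ((A0 : ℝ) + 4 * A1 * dn E a b + 6 * A2 * dn E a b ^ 2
          + 4 * A3 * dn E a b ^ 3 + A4 * dn E a b ^ 4)) := by ring
      _ = _ := by rw [e4]; ring
  rw [e2, hR] at hb'
  have h5 : K * (Fintype.card V : ℝ) ^ 4 * ∑ a, ∑ b, ph u v k (dn E a b)
      ≤ K * (Fintype.card V : ℝ) ^ 4 * (5 / 9 * (Fintype.card V : ℝ) ^ 2) := by
    calc _ ≤ _ := hb'
      _ = _ := by ring
  exact le_of_mul_le_mul_left h5 (by positivity)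

end
end Pool.Agent.H122R2.N6
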