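import Pool.Agent.H122R2.N6.Leaf

/-! Counting lemmas: from sums over vertex tuples to numbers of edges and of quadruples. -/

set_option autoImplicit false
open Finset
open scoped Classical

namespace Pool.Agent.H122R2.N6

section
variable {V : Type}

/-- indicator of the edges -/
noncomputable def tri (H : Finset (Finset V)) (a b c : V) : ℕ :=
  if ({a, b, c} : Finset V) ∈ H then 1 else 0

theorem tri_sy (H : Finset (Finset V)) : Sy (tri H) where
  b x y z := by unfold tri Bt; split_ifs <;> simp
  h213 x y z := by unfold tri; rw [Finset.insert_comm]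
  h132 x y z := by
    unfold tri
    have : ({x, z, y} : Finset V) = {x, y, z} := by ext t; simp; tauto
    rw [this]

theorem distinct_of_mem {H : Finset (Finset V)} (hH : ∀ e ∈ H, e.card = 3) {a b c : V}
    (h : ({a, b, c} : Finset V) ∈ H) : a ≠ b ∧ a ≠ c ∧ b ≠ c := by
  have h3 := hH _ h
  refine ⟨?_, ?_, ?_⟩
  · rintro rfl
    rw [Finset.insert_eq_of_mem (by simp)] at h3
    have := Finset.card_le_two (a := a) (b := c)
    omega
  · rintro rfl
    rw [Finset.insert_eq_of_mem (by simp)] at h3
    have := Finset.card_le_two (a := b) (b := a)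
    omega
  · rintro rfl
    have e : ({a, b, b} : Finset V) = {a, b} := by ext t; simp
    rw [e] at h3
    have := Finset.card_le_two (a := a) (b := b)
    omega

theorem tri_zero {H : Finset (Finset V)} (hH : ∀ e ∈ H, e.card = 3) {a b c : V}
    (h : a = b ∨ a = c ∨ b = c) : tri H a b c = 0 := by
  unfold tri
  rw [if_neg]
  intro h'
  obtain ⟨h1, h2, h3⟩ := distinct_of_mem hH h'
  tauto

/-- no four vertices span all four triples -/
def K43Free (H : Finset (Finset V)) : Prop :=
  ∀ S : Finset V, S.card = 4 → ∃ s ⊆ S, s.card = 3 ∧ s ∉ H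

theorem tri_noK4 {H : Finset (Finset V)} (hH : ∀ e ∈ H, e.card = 3) (hF : K43Free H) :
    NoK4 (tri H) := by
  intro a b c d
  by_contra hcon
  rw [Bool.not_eq_false] at hcon
  have h4 := Nat.eq_of_beq_eq_true hcon
  simp only [Nat.add_eq] at h4
  have hb := (tri_sy H).b
  have h1 : tri H a b c = 1 ∧ tri H a b d = 1 ∧ tri H a c d = 1 ∧ tri H b c d = 1 := by
    rcases hb a b c with h | h <;> rcases hb a b d with h' | h' <;>
      rcases hb a c d with h'' | h'' <;> rcases hb b c d with h''' | h''' <;> omega
  have mem : ∀ x y z : V, tri H x y z = 1 → ({x, y, z} : Finset V) ∈ H := by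
    intro x y z h
    unfold tri at h
    by_contra hn
    rw [if_neg hn] at h
    exact absurd h (by norm_num)
  have m1 := mem _ _ _ h1.1
  have m2 := mem _ _ _ h1.2.1
  have m3 := mem _ _ _ h1.2.2.1
  have m4 := mem _ _ _ h1.2.2.2
  obtain ⟨hab, hac, hbc⟩ := distinct_of_mem hH m1
  obtain ⟨-, had, hbd⟩ := distinct_of_mem hH m2
  obtain ⟨-, -, hcd⟩ := distinct_of_mem hH m3
  have hS : ({a, b, c, d} : Finset V).card = 4 := by
    rw [card_insert_of_notMem, card_insert_of_notMem, card_insert_of_notMem, card_singleton]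
    · simpa using hcd
    · simp [hbc, hbd]
    · simp [hab, hac, had]
  obtain ⟨s, hs, hs3, hsH⟩ := hF _ hS
  obtain ⟨x, hx, hxs⟩ : ∃ x ∈ ({a, b, c, d} : Finset V), x ∉ s := by
    by_contra hno
    push Not at hno
    have : ({a, b, c, d} : Finset V) ⊆ s := hno
    have := card_le_card this
    omega
  have hse : s = ({a, b, c, d} : Finset V).erase x := by
    refine eq_of_subset_of_card_le ?_ ?_
    · intro y hy
      exact mem_erase.mpr ⟨fun h => hxs (h ▸ hy), hs hy⟩
    · rw [card_erase_of_mem hx, hS, hs3]
  simp only [mem_insert, mem_singleton] at hx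
  apply hsH
  rw [hse]
  rcases hx with rfl | rfl | rfl | rfl
  · have : ({x, b, c, d} : Finset V).erase x = {b, c, d} := by
      rw [erase_insert]; simp [hab, hac, had]
    rwa [this]
  · have : ({a, x, c, d} : Finset V).erase x = {a, c, d} := by
      ext t; simp only [mem_erase, mem_insert, mem_singleton]
      constructor
      · rintro ⟨h1, h2 | h2 | h2 | h2⟩ <;> simp_all
      · rintro (h2 | h2 | h2) <;> simp_all [Ne.symm]
    rwa [this]
  · have : ({a, b, x, d} : Finset V).erase x = {a, b, d} := by
      ext t; simp only [mem_erase, mem_insert, mem_singleton]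
      constructor
      · rintro ⟨h1, h2 | h2 | h2 | h2⟩ <;> simp_all
      · rintro (h2 | h2 | h2) <;> simp_all [Ne.symm]
    rwa [this]
  · have : ({a, b, c, x} : Finset V).erase x = {a, b, c} := by
      ext t; simp only [mem_erase, mem_insert, mem_singleton]
      constructor
      · rintro ⟨h1, h2 | h2 | h2 | h2⟩ <;> simp_all
      · rintro (h2 | h2 | h2) <;> simp_all [Ne.symm]
    rwa [this]

variable [Fintype V]

theorem six_card_le {H : Finset (Finset V)} (hH : ∀ e ∈ H, e.card = 3) :
    6 * H.card ≤ ∑ a, ∑ b, ∑ c, tri H a b c := by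
  set T : Finset (V × V × V) := univ.filter fun t => ({t.1, t.2.1, t.2.2} : Finset V) ∈ H with hT
  have e : ∑ a, ∑ b, ∑ c, tri H a b c = T.card := by
    rw [hT, Finset.card_filter, Fintype.sum_prod_type]
    refine sum_congr rfl fun a _ => ?_
    rw [Fintype.sum_prod_type]
    rfl
  have hfw := card_eq_sum_card_fiberwise (s := T)
    (f := fun t : V × V × V => ({t.1, t.2.1, t.2.2} : Finset V))
    (t := H) (fun t ht => (mem_filter.mp (mem_coe.mp ht)).2)
  rw [e, hfw, mul_comm, ← smul_eq_mul, ← sum_const]
  refine sum_le_sum fun s hs => ?_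
  obtain ⟨x, y, z, hxy, hxz, hyz, rfl⟩ := Finset.card_eq_three.mp (hH s hs)
  have h6 : ({(x, y, z), (x, z, y), (y, x, z), (y, z, x), (z, x, y), (z, y, x)} :
      Finset (V × V × V)).card = 6 := by
    rw [card_insert_of_notMem, card_insert_of_notMem, card_insert_of_notMem,
      card_insert_of_notMem, card_insert_of_notMem, card_singleton] <;>
    simp [hxy, hxz, hyz, hxy.symm, hxz.symm, hyz.symm]
  rw [← h6]
  have key : ∀ u v w : V, ({u, v, w} : Finset V) = {x, y, z} →
      (u, v, w) ∈ T.filter (fun t : V × V × V => ({t.1, t.2.1, t.2.2} : Finset V) = {x, y, z}) := by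
    intro u v w h
    have hm : ({u, v, w} : Finset V) ∈ H := by rw [h]; exact hs
    rw [mem_filter, hT, mem_filter]
    exact ⟨⟨mem_univ _, hm⟩, h⟩
  refine card_le_card ?_
  intro t ht
  simp only [mem_insert, mem_singleton] at ht
  rcases ht with h | h | h | h | h | h <;> rw [h]
  · exact key x y z rfl
  · exact key x z y (by rw [pair_comm z y])
  · exact key y x z (insert_comm _ _ _)
  · exact key y z x (by rw [pair_comm z x, insert_comm])
  · exact key z x y (by rw [insert_comm z x, pair_comm z y])
  · exact key z y x (by rw [pair_comm y x, insert_comm z x, pair_comm z y])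

/-- the number of 4-sets of vertices spanning exactly one edge -/
noncomputable def oneEdge (H : Finset (Finset V)) : ℕ :=
  (((univ : Finset V).powersetCard 4).filter fun S => (H.filter (· ⊆ S)).card = 1).card

theorem distinct_of_one {H : Finset (Finset V)} (hH : ∀ e ∈ H, e.card = 3) {a b c d : V}
    (h : tri H a b c + tri H a b d + tri H a c d + tri H b c d = 1) :
    a ≠ b ∧ a ≠ c ∧ a ≠ d ∧ b ≠ c ∧ b ≠ d ∧ c ≠ d := by
  have hs := tri_sy H
  refine ⟨?_, ?_, ?_, ?_, ?_, ?_⟩
  · rintro rfl
    rw [tri_zero hH (a := a) (b := a) (c := c) (by simp), tri_zero hH (a := a) (b := a) (c := d) (by simp)] at h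
    omega
  · rintro rfl
    rw [tri_zero hH (a := a) (b := b) (c := a) (by simp), tri_zero hH (a := a) (b := a) (c := d) (by simp),
      hs.h213 a b d] at h
    omega
  · rintro rfl
    rw [tri_zero hH (a := a) (b := b) (c := a) (by simp), tri_zero hH (a := a) (b := c) (c := a) (by simp),
      hs.h231 a b c] at h
    omega
  · rintro rfl
    rw [tri_zero hH (a := a) (b := b) (c := b) (by simp), tri_zero hH (a := b) (b := b) (c := d) (by simp)] at h
    omega
  · rintro rfl
    rw [tri_zero hH (a := a) (b := b) (c := b) (by simp), tri_zero hH (a := b) (b := c) (c := b) (by simp),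
      hs.h132 a b c] at h
    omega
  · rintro rfl
    rw [tri_zero hH (a := a) (b := c) (c := c) (by simp), tri_zero hH (a := b) (b := c) (c := c) (by simp)] at h
    omega

theorem card_filter_four {H : Finset (Finset V)} (hH : ∀ e ∈ H, e.card = 3) {a b c d : V}
    (hab : a ≠ b) (hac : a ≠ c) (had : a ≠ d) (hbc : b ≠ c) (hbd : b ≠ d) (hcd : c ≠ d) :
    (H.filter (· ⊆ ({a, b, c, d} : Finset V))).card =
      tri H a b c + tri H a b d + tri H a c d + tri H b c d := by
  have e : H.filter (· ⊆ ({a, b, c, d} : Finset V)) =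
      ({{a, b, c}, {a, b, d}, {a, c, d}, {b, c, d}} : Finset (Finset V)).filter (· ∈ H) := by
    ext s
    rw [mem_filter, mem_filter]
    constructor
    · rintro ⟨hs, hsub⟩
      refine ⟨?_, hs⟩
      have h3 := hH s hs
      have hS : ({a, b, c, d} : Finset V).card = 4 := by
        rw [card_insert_of_notMem, card_insert_of_notMem, card_insert_of_notMem, card_singleton]
        · simpa using hcd
        · simp [hbc, hbd]
        · simp [hab, hac, had]
      obtain ⟨x, hx, hxs⟩ : ∃ x ∈ ({a, b, c, d} : Finset V), x ∉ s := by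
        by_contra hno
        push Not at hno
        have : ({a, b, c, d} : Finset V) ⊆ s := hno
        have := card_le_card this
        omega
      have hse : s = ({a, b, c, d} : Finset V).erase x := by
        refine eq_of_subset_of_card_le ?_ ?_
        · intro y hy
          exact mem_erase.mpr ⟨fun h => hxs (h ▸ hy), hsub hy⟩
        · rw [card_erase_of_mem hx, hS, h3]
      simp only [mem_insert, mem_singleton] at hx ⊢
      rcases hx with rfl | rfl | rfl | rfl
      · right; right; right
        rw [hse, erase_insert]; simp [hab, hac, had]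
      · right; right; left
        rw [hse]
        ext t; simp only [mem_erase, mem_insert, mem_singleton]
        constructor
        · rintro ⟨h1, h2 | h2 | h2 | h2⟩ <;> simp_all
        · rintro (h2 | h2 | h2) <;> simp_all [Ne.symm]
      · right; left
        rw [hse]
        ext t; simp only [mem_erase, mem_insert, mem_singleton]
        constructor
        · rintro ⟨h1, h2 | h2 | h2 | h2⟩ <;> simp_all
        · rintro (h2 | h2 | h2) <;> simp_all [Ne.symm]
      · left
        rw [hse]
        ext t; simp only [mem_erase, mem_insert, mem_singleton]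
        constructor
        · rintro ⟨h1, h2 | h2 | h2 | h2⟩ <;> simp_all
        · rintro (h2 | h2 | h2) <;> simp_all [Ne.symm]
    · rintro ⟨hs, hsH⟩
      refine ⟨hsH, ?_⟩
      simp only [mem_insert, mem_singleton] at hs
      rcases hs with rfl | rfl | rfl | rfl <;> intro t ht <;>
        simp only [mem_insert, mem_singleton] at ht ⊢ <;> tauto
  have n1 : ({a, b, c} : Finset V) ≠ {a, b, d} := by
    intro h
    have : c ∈ ({a, b, d} : Finset V) := by rw [← h]; simp
    simp only [mem_insert, mem_singleton] at this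
    rcases this with h | h | h
    exacts [hac h.symm, hbc h.symm, hcd h]
  have n2 : ({a, b, c} : Finset V) ≠ {a, c, d} := by
    intro h
    have : b ∈ ({a, c, d} : Finset V) := by rw [← h]; simp
    simp only [mem_insert, mem_singleton] at this
    rcases this with h | h | h
    exacts [hab h.symm, hbc h, hbd h]
  have n3 : ({a, b, c} : Finset V) ≠ {b, c, d} := by
    intro h
    have : a ∈ ({b, c, d} : Finset V) := by rw [← h]; simp
    simp only [mem_insert, mem_singleton] at this
    rcases this with h | h | h
    exacts [hab h, hac h, had h]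
  have n4 : ({a, b, d} : Finset V) ≠ {a, c, d} := by
    intro h
    have : b ∈ ({a, c, d} : Finset V) := by rw [← h]; simp
    simp only [mem_insert, mem_singleton] at this
    rcases this with h | h | h
    exacts [hab h.symm, hbc h, hbd h]
  have n5 : ({a, b, d} : Finset V) ≠ {b, c, d} := by
    intro h
    have : a ∈ ({b, c, d} : Finset V) := by rw [← h]; simp
    simp only [mem_insert, mem_singleton] at this
    rcases this with h | h | h
    exacts [hab h, hac h, had h]
  have n6 : ({a, c, d} : Finset V) ≠ {b, c, d} := by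
    intro h
    have : a ∈ ({b, c, d} : Finset V) := by rw [← h]; simp
    simp only [mem_insert, mem_singleton] at this
    rcases this with h | h | h
    exacts [hab h, hac h, had h]
  rw [e, card_filter, sum_insert, sum_insert, sum_insert, sum_singleton]
  · unfold tri; ring
  · simpa using n6
  · simp [n4, n5]
  · simp [n1, n2, n3]

/-- the ordered quadruples with exactly one edge -/
theorem one_tuples_le {H : Finset (Finset V)} (hH : ∀ e ∈ H, e.card = 3) :
    ∑ a, ∑ b, ∑ c, ∑ d,
      (if tri H a b c + tri H a b d + tri H a c d + tri H b c d = 1 then 1 else 0) ≤ 24 * oneEdge H := by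
  set T : Finset (V × V × V × V) := univ.filter fun t =>
    tri H t.1 t.2.1 t.2.2.1 + tri H t.1 t.2.1 t.2.2.2 + tri H t.1 t.2.2.1 t.2.2.2 +
      tri H t.2.1 t.2.2.1 t.2.2.2 = 1 with hT
  have e : ∑ a, ∑ b, ∑ c, ∑ d,
      (if tri H a b c + tri H a b d + tri H a c d + tri H b c d = 1 then 1 else 0) = T.card := by
    rw [hT, Finset.card_filter, Fintype.sum_prod_type]
    refine sum_congr rfl fun a _ => ?_
    rw [Fintype.sum_prod_type]
    refine sum_congr rfl fun b _ => ?_
    rw [Fintype.sum_prod_type]
  rw [e]
  unfold oneEdge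
  refine Finset.card_le_mul_card_image_of_maps_to
    (f := fun t : V × V × V × V => ({t.1, t.2.1, t.2.2.1, t.2.2.2} : Finset V)) ?_ 24 ?_
  · rintro ⟨a, b, c, d⟩ ht
    have h := (mem_filter.mp ht).2
    simp only at h
    obtain ⟨hab, hac, had, hbc, hbd, hcd⟩ := distinct_of_one hH h
    rw [mem_filter, mem_powersetCard]
    refine ⟨⟨subset_univ _, ?_⟩, ?_⟩
    · rw [card_insert_of_notMem, card_insert_of_notMem, card_insert_of_notMem, card_singleton]
      · simpa using hcd
      · simp [hbc, hbd]
      · simp [hab, hac, had]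
    · rw [card_filter_four hH hab hac had hbc hbd hcd, h]
  · intro S hS
    have hS4 : S.card = 4 := (mem_powersetCard.mp (mem_filter.mp hS).1).2
    have hcard : (univ : Finset (Fin 4 ↪ S)).card = 24 := by
      rw [card_univ, Fintype.card_embedding_eq, Fintype.card_coe, hS4, Fintype.card_fin]
      rfl
    rw [← hcard]
    refine (card_le_card (t := (univ : Finset (Fin 4 ↪ S)).image
      fun f => ((f 0 : V), (f 1 : V), (f 2 : V), (f 3 : V))) ?_).trans card_image_le
    rintro ⟨a, b, c, d⟩ ht
    rw [mem_filter] at ht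
    obtain ⟨ht, hs'⟩ := ht
    have h := (mem_filter.mp ht).2
    simp only at h hs'
    obtain ⟨hab, hac, had, hbc, hbd, hcd⟩ := distinct_of_one hH h
    have ha : a ∈ S := by rw [← hs']; simp
    have hb : b ∈ S := by rw [← hs']; simp
    have hc : c ∈ S := by rw [← hs']; simp
    have hd : d ∈ S := by rw [← hs']; simp
    rw [mem_image]
    refine ⟨⟨![⟨a, ha⟩, ⟨b, hb⟩, ⟨c, hc⟩, ⟨d, hd⟩], ?_⟩, mem_univ _, rfl⟩
    intro i j hij
    fin_cases i <;> fin_cases j <;> simp_all [Subtype.ext_iff]

/-- the codegree of a pair -/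
noncomputable def deg2 (H : Finset (Finset V)) (P : Finset V) : ℕ := (H.filter (P ⊆ ·)).card

theorem deg2_le {H : Finset (Finset V)} (hH : ∀ e ∈ H, e.card = 3) {a b : V} (hab : a ≠ b) :
    deg2 H {a, b} ≤ ∑ c, tri H a b c := by
  have e : ∑ c, tri H a b c = (univ.filter fun c => ({a, b, c} : Finset V) ∈ H).card := by
    rw [card_filter]
    rfl
  rw [e]
  unfold deg2
  refine (card_le_card (t := (univ.filter fun c => ({a, b, c} : Finset V) ∈ H).image
    fun c => ({a, b, c} : Finset V)) ?_).trans card_image_le
  intro s hs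
  rw [mem_filter] at hs
  obtain ⟨hsH, hsub⟩ := hs
  have h3 := hH s hsH
  have h2 : ({a, b} : Finset V).card = 2 := card_pair hab
  obtain ⟨c, hc, hcn⟩ : ∃ c ∈ s, c ∉ ({a, b} : Finset V) := by
    by_contra hno
    push Not at hno
    have := card_le_card (show s ⊆ ({a, b} : Finset V) from hno)
    omega
  have hse : ({a, b, c} : Finset V) = s := by
    refine eq_of_subset_of_card_le ?_ ?_
    · intro y hy
      simp only [mem_insert, mem_singleton] at hy
      rcases hy with rfl | rfl | rfl
      · exact hsub (by simp)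
      · exact hsub (by simp)
      · exact hc
    · rw [h3]
      simp only [mem_insert, mem_singleton, not_or] at hcn
      rw [card_insert_of_notMem, card_insert_of_notMem, card_singleton]
      · simpa using (Ne.symm hcn.2)
      · simp [hab, Ne.symm hcn.1]
  rw [mem_image]
  exact ⟨c, mem_filter.mpr ⟨mem_univ _, by rwa [hse]⟩, hse⟩

theorem deg2_sum_le {H : Finset (Finset V)} (hH : ∀ e ∈ H, e.card = 3) :
    2 * ∑ P ∈ (univ : Finset V).powersetCard 2, deg2 H P ^ 2 ≤ ∑ a, ∑ b, (∑ c, tri H a b c) ^ 2 := by
  have h1 : ∑ p ∈ (univ : Finset V).offDiag, deg2 H {p.1, p.2} ^ 2 ≤ ∑ a, ∑ b, (∑ c, tri H a b c) ^ 2 := by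
    rw [← Fintype.sum_prod_type' (f := fun a b => (∑ c, tri H a b c) ^ 2)]
    calc ∑ p ∈ (univ : Finset V).offDiag, deg2 H {p.1, p.2} ^ 2
        ≤ ∑ p ∈ (univ : Finset V).offDiag, (∑ c, tri H p.1 p.2 c) ^ 2 := by
          refine sum_le_sum fun p hp => ?_
          have hne := (mem_offDiag.mp hp).2.2
          exact Nat.pow_le_pow_left (deg2_le hH hne) 2
      _ ≤ ∑ p : V × V, (∑ c, tri H p.1 p.2 c) ^ 2 :=
          sum_le_sum_of_subset (subset_univ _)
  refine le_trans ?_ h1
  rw [← sum_fiberwise_of_maps_to (s := (univ : Finset V).offDiag)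
    (t := (univ : Finset V).powersetCard 2) (g := fun p => ({p.1, p.2} : Finset V))
    (f := fun p => deg2 H {p.1, p.2} ^ 2) ?_, mul_sum]
  · refine sum_le_sum fun P hP => ?_
    obtain ⟨x, y, hxy, rfl⟩ := card_eq_two.mp (mem_powersetCard.mp hP).2
    have h2 : ({(x, y), (y, x)} : Finset (V × V)).card = 2 := by
      rw [card_pair]
      intro h
      exact hxy (Prod.ext_iff.mp h).1
    calc 2 * deg2 H {x, y} ^ 2 = ∑ p ∈ ({(x, y), (y, x)} : Finset (V × V)), deg2 H {x, y} ^ 2 := by
          rw [sum_const, h2, smul_eq_mul]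
      _ ≤ ∑ p ∈ (univ : Finset V).offDiag.filter (fun p => ({p.1, p.2} : Finset V) = {x, y}),
          deg2 H {x, y} ^ 2 := by
          refine sum_le_sum_of_subset ?_
          intro p hp
          simp only [mem_insert, mem_singleton] at hp
          rw [mem_filter, mem_offDiag]
          rcases hp with rfl | rfl
          · exact ⟨⟨mem_univ _, mem_univ _, hxy⟩, rfl⟩
          · exact ⟨⟨mem_univ _, mem_univ _, hxy.symm⟩, pair_comm _ _⟩
      _ = ∑ p ∈ (univ : Finset V).offDiag.filter (fun p => ({p.1, p.2} : Finset V) = {x, y}),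
          deg2 H {p.1, p.2} ^ 2 := by
          refine sum_congr rfl fun p hp => ?_
          rw [(mem_filter.mp hp).2]
  · intro p hp
    rw [mem_powersetCard]
    exact ⟨subset_univ _, card_pair (mem_offDiag.mp hp).2.2⟩

end
end Pool.Agent.H122R2.N6
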