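import Pool.Agent.H122R2.N6.Defs

set_option autoImplicit false
set_option maxRecDepth 100000

namespace Pool.Agent.H122R2.N6

/-- the table is invariant under relabelling of the roots and exchange of the flags -/
def sym4 (q4 : ℕ → ℕ → ℕ → ℕ) : Bool := B2 fun p0 => B2 fun p1 => B2 fun p2 => B2 fun p3 => B2 fun i0 => B2 fun i1 => B2 fun i2 => B2 fun i3 => B2 fun i4 => B2 fun i5 => B2 fun j0 => B2 fun j1 => B2 fun j2 => B2 fun j3 => B2 fun j4 => B2 fun j5 => and (Nat.beq (q4 (cd4 p0 p1 p3 p2) (cd6 i0 i2 i1 i4 i3 i5) (cd6 j0 j2 j1 j4 j3 j5)) (q4 (cd4 p0 p1 p2 p3) (cd6 i0 i1 i2 i3 i4 i5) (cd6 j0 j1 j2 j3 j4 j5))) (and (Nat.beq (q4 (cd4 p0 p2 p1 p3) (cd6 i1 i0 i2 i3 i5 i4) (cd6 j1 j0 j2 j3 j5 j4)) (q4 (cd4 p0 p1 p2 p3) (cd6 i0 i1 i2 i3 i4 i5) (cd6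 j0 j1 j2 j3 j4 j5))) (and (Nat.beq (q4 (cd4 p1 p0 p2 p3) (cd6 i0 i3 i4 i1 i2 i5) (cd6 j0 j3 j4 j1 j2 j5)) (q4 (cd4 p0 p1 p2 p3) (cd6 i0 i1 i2 i3 i4 i5) (cd6 j0 j1 j2 j3 j4 j5))) (Nat.beq (q4 (cd4 p0 p1 p2 p3) (cd6 j0 j1 j2 j3 j4 j5) (cd6 i0 i1 i2 i3 i4 i5)) (q4 (cd4 p0 p1 p2 p3) (cd6 i0 i1 i2 i3 i4 i5) (cd6 j0 j1 j2 j3 j4 j5)))))

def sym2 (q2 : ℕ → ℕ → ℕ) : Bool := B2 fun i0 => B2 fun i1 => B2 fun i2 => B2 fun i3 => B2 fun j0 => B2 fun j1 => B2 fun j2 => B2 fun j3 => and (Nat.beq (q2 (cd4 i0 i1 i3 i2) (cd4 j0 j1 j3 j2)) (q2 (cd4 i0 i1 i2 i3) (cd4 j0 j1 j2 j3))) (and (Nat.beq (q2 (cd4 i1 i0 i2 i3) (cd4 j0 j1 j2 j3)) (q2 (cd4 i0 i1 i2 i3) (cd4 j0 j1 j2 j3))) (Nat.beq (q2 (cd4 j0 j1 j2 j3) (cd4 i0 i1 i2 i3)) (q2 (cd4 i0 i1 i2 i3) (cd4 j0 j1 j2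 j3))))

end Pool.Agent.H122R2.N6
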