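import Pool.Agent.H122R2.N6.Maj2

/-! The inequalities for the weights. -/

set_option autoImplicit false

namespace Pool.Agent.H122R2.N6.Maj

noncomputable def Gg (p q : ℝ) : ℝ := 4 * (q - 1) + 6 * p - 3 * (p * q)

theorem two_rpow (t : ℝ) : (2 : ℝ) ^ t = Real.exp (Real.log 2 * t) :=
  Real.rpow_def_of_pos (by norm_num) t

theorem sqrt8 : (2.828427 : ℝ) ≤ (2 : ℝ) ^ (3 / 2 : ℝ) ∧ (2 : ℝ) ^ (3 / 2 : ℝ) ≤ 2.828428 := by
  have h8 : ((2 : ℝ) ^ (3 / 2 : ℝ)) ^ 2 = 8 := by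
    rw [← Real.rpow_natCast, ← Real.rpow_mul (by norm_num)]
    norm_num
  have hpos : 0 < (2 : ℝ) ^ (3 / 2 : ℝ) := Real.rpow_pos_of_pos (by norm_num) _
  constructor <;> nlinarith

theorem q_lo32 {t : ℝ} (h0 : 0 ≤ t) :
    2.828427 * (1 + 0.693147 * t + 0.24022 * t ^ 2) ≤ (2 : ℝ) ^ (3 / 2 + t) := by
  rw [Real.rpow_add (by norm_num)]
  have hL := Real.log_two_gt_d9
  have hx : 0 ≤ Real.log 2 * t := mul_nonneg (by linarith) h0
  have he := Real.quadratic_le_exp_of_nonneg hx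
  rw [← two_rpow] at he
  have h1 : 0.693147 * t ≤ Real.log 2 * t := mul_le_mul_of_nonneg_right (by linarith) h0
  have h2 : (0.693147 * t) ^ 2 ≤ (Real.log 2 * t) ^ 2 := pow_le_pow_left₀ (by positivity) h1 2
  have h3 : 1 + 0.693147 * t + 0.24022 * t ^ 2 ≤ (2 : ℝ) ^ t := by nlinarith [sq_nonneg t]
  exact mul_le_mul sqrt8.1 h3 (by positivity) (by positivity)

theorem q_up32 {t : ℝ} (h0 : 0 ≤ t) (h1 : t ≤ 1 / 2) :
    (2 : ℝ) ^ (3 / 2 + t) ≤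
      2.828428 * (1 + 0.6931472 * t + 0.240227 * t ^ 2 + 0.07401 * t ^ 3) := by
  rw [Real.rpow_add (by norm_num)]
  have hL := Real.log_two_gt_d9
  have hL' := Real.log_two_lt_d9
  have hx : 0 ≤ Real.log 2 * t := mul_nonneg (by linarith) h0
  have h2 : Real.log 2 * t ≤ 0.6931472 * t := mul_le_mul_of_nonneg_right (by linarith) h0
  have he := Real.exp_bound' hx (by linarith) (n := 3) (by norm_num)
  rw [← two_rpow] at he
  simp only [Finset.sum_range_succ, Finset.sum_range_zero, Nat.factorial] at he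
  have h3 : (Real.log 2 * t) ^ 2 ≤ (0.6931472 * t) ^ 2 := pow_le_pow_left₀ hx h2 2
  have h4 : (Real.log 2 * t) ^ 3 ≤ (0.6931472 * t) ^ 3 := pow_le_pow_left₀ hx h2 3
  have h5 : (2 : ℝ) ^ t ≤ 1 + 0.6931472 * t + 0.240227 * t ^ 2 + 0.07401 * t ^ 3 := by
    norm_num at he ⊢
    nlinarith [sq_nonneg t, pow_nonneg h0 3]
  exact mul_le_mul sqrt8.2 h5 (by positivity) (by norm_num)

theorem q_up2 {r : ℝ} (h0 : 0 ≤ r) (h1 : r ≤ 1 / 2) :
    (2 : ℝ) ^ (2 - r) ≤ 4 * (1 - 0.693147 * r + 0.48046 * r ^ 2) := by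
  rw [Real.rpow_sub (by norm_num)]
  have hL := Real.log_two_gt_d9
  have hL' := Real.log_two_lt_d9
  have hx : |-(Real.log 2 * r)| ≤ 1 := by
    rw [abs_neg, abs_of_nonneg (mul_nonneg (by linarith) h0)]
    nlinarith
  have he := Real.abs_exp_sub_one_sub_id_le hx
  have h2 := (abs_le.mp he).2
  have h3 : (2 : ℝ) ^ (2 : ℝ) / 2 ^ r = 4 * Real.exp (-(Real.log 2 * r)) := by
    rw [Real.exp_neg, ← two_rpow]
    norm_num
    rfl
  rw [h3]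
  have h4 : (Real.log 2 * r) ^ 2 ≤ (0.6931472 * r) ^ 2 :=
    pow_le_pow_left₀ (mul_nonneg (by linarith) h0) (mul_le_mul_of_nonneg_right (by linarith) h0) 2
  have h5 : 0.693147 * r ≤ Real.log 2 * r := mul_le_mul_of_nonneg_right (by linarith) h0
  have h6 : (-(Real.log 2 * r)) ^ 2 = (Real.log 2 * r) ^ 2 := by ring
  rw [h6] at h2
  nlinarith [sq_nonneg r]

theorem q_lo2 {t : ℝ} (h0 : 0 ≤ t) :
    4 * (1 + 0.693147 * t + (0.693147 * t) ^ 2 / 2 + (0.693147 * t) ^ 3 / 6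
      + (0.693147 * t) ^ 4 / 24) ≤ (2 : ℝ) ^ (2 + t) := by
  rw [Real.rpow_add (by norm_num)]
  have hL := Real.log_two_gt_d9
  have h1 : 0.693147 * t ≤ Real.log 2 * t := mul_le_mul_of_nonneg_right (by linarith) h0
  have hx : 0 ≤ 0.693147 * t := by positivity
  have he := Real.sum_le_exp_of_nonneg hx 5
  simp only [Finset.sum_range_succ, Finset.sum_range_zero, Nat.factorial] at he
  have h2 : Real.exp (0.693147 * t) ≤ (2 : ℝ) ^ t := by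
    rw [two_rpow]; exact Real.exp_le_exp.mpr h1
  have h3 : 1 + 0.693147 * t + (0.693147 * t) ^ 2 / 2 + (0.693147 * t) ^ 3 / 6
      + (0.693147 * t) ^ 4 / 24 ≤ (2 : ℝ) ^ t := by
    refine le_trans (le_of_eq ?_) (he.trans h2)
    push_cast
    ring
  have h4 : (2 : ℝ) ^ (2 : ℝ) = 4 := by norm_num
  rw [h4]
  linarith

theorem q_up2' {t : ℝ} (h0 : 0 ≤ t) (h1 : t ≤ 1) :
    (2 : ℝ) ^ (2 + t) ≤ 4 * (1 + 0.6931472 * t + (0.6931472 * t) ^ 2 / 2 + (0.6931472 * t) ^ 3 / 6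
      + (0.6931472 * t) ^ 4 * (5 / 96)) := by
  rw [Real.rpow_add (by norm_num)]
  have hL' := Real.log_two_lt_d9
  have h2 : Real.log 2 * t ≤ 0.6931472 * t := mul_le_mul_of_nonneg_right (by linarith) h0
  have hx : 0 ≤ 0.6931472 * t := by positivity
  have he := Real.exp_bound' hx (by linarith) (n := 4) (by norm_num)
  simp only [Finset.sum_range_succ, Finset.sum_range_zero, Nat.factorial] at he
  have h3 : (2 : ℝ) ^ t ≤ Real.exp (0.6931472 * t) := by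
    rw [two_rpow]; exact Real.exp_le_exp.mpr h2
  have h5 : (2 : ℝ) ^ t ≤ 1 + 0.6931472 * t + (0.6931472 * t) ^ 2 / 2 + (0.6931472 * t) ^ 3 / 6
      + (0.6931472 * t) ^ 4 * (5 / 96) := by
    refine (h3.trans he).trans (le_of_eq ?_)
    push_cast
    ring
  have h4 : (2 : ℝ) ^ (2 : ℝ) = 4 := by norm_num
  rw [h4]
  linarith

theorem I0 {p : ℝ} (h1 : 3 / 2 ≤ p) (h2 : p ≤ 2) :
    0 ≤ (2 - (2 : ℝ) ^ p) + 2 / 9 * U p (2 ^ p) + 4 / 81 * (9 / 8 * ((2 : ℝ) ^ p - 1)) := by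
  have ht : 0 ≤ p - 3 / 2 := by linarith
  have hs : 0 ≤ 1 / 2 - (p - 3 / 2) := by linarith
  have hq := q_lo32 ht
  rw [show 3 / 2 + (p - 3 / 2) = p by ring] at hq
  set q := (2 : ℝ) ^ p
  have hα : 0 ≤ 91 / 18 - p := by linarith
  have hm := mul_le_mul_of_nonneg_right hq hα
  unfold U
  obtain ⟨t, rfl⟩ : ∃ t, p = 3 / 2 + t := ⟨p - 3 / 2, by ring⟩
  rw [show 3 / 2 + t - 3 / 2 = t by ring] at *
  nlinarith [mul_nonneg (pow_nonneg ht 3) (pow_nonneg hs 0), mul_nonneg (pow_nonneg ht 2) (pow_nonneg hs 1),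
    mul_nonneg (pow_nonneg ht 1) (pow_nonneg hs 2), mul_nonneg (pow_nonneg ht 0) (pow_nonneg hs 3)]

theorem I1 {p : ℝ} (h1 : 3 / 2 ≤ p) (h2 : p ≤ 2) : 0 ≤ Gg p ((2 : ℝ) ^ p) := by
  have ht : 0 ≤ 2 - p := by linarith
  have hs : 2 - p ≤ 1 / 2 := by linarith
  have hq := q_up2 ht hs
  rw [show 2 - (2 - p) = p by ring] at hq
  set q := (2 : ℝ) ^ p
  obtain ⟨r, rfl⟩ : ∃ r, p = 2 - r := ⟨2 - p, by ring⟩
  rw [show 2 - (2 - r) = r by ring] at *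
  have hα : 0 ≤ 2 - 3 * r := by linarith
  have hm := mul_le_mul_of_nonneg_right hq hα
  unfold Gg
  have hb : 0 ≤ r * (1 / 2 - r) := mul_nonneg ht (by linarith)
  have hb2 : 0 ≤ r ^ 2 * (1 / 2 - r) := mul_nonneg (by positivity) (by linarith)
  have hb3 : 0 ≤ r ^ 3 := by positivity
  nlinarith

theorem I2 {p : ℝ} (h1 : 3 / 2 ≤ p) (h2 : p ≤ 2) :
    0 ≤ U p ((2 : ℝ) ^ p) - 447 / 491 * Gg p (2 ^ p) := by
  have ht : 0 ≤ p - 3 / 2 := by linarith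
  have hs : 0 ≤ 1 / 2 - (p - 3 / 2) := by linarith
  have hq := q_lo32 ht
  rw [show 3 / 2 + (p - 3 / 2) = p by ring] at hq
  set q := (2 : ℝ) ^ p
  have hα : 0 ≤ 27 - 9 / 2 * p - 447 / 491 * (4 - 3 * p) := by linarith
  have hm := mul_le_mul_of_nonneg_right hq hα
  unfold U Gg
  obtain ⟨t, rfl⟩ : ∃ t, p = 3 / 2 + t := ⟨p - 3 / 2, by ring⟩
  rw [show 3 / 2 + t - 3 / 2 = t by ring] at *
  nlinarith [mul_nonneg (pow_nonneg ht 3) (pow_nonneg hs 0), mul_nonneg (pow_nonneg ht 2) (pow_nonneg hs 1),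
    mul_nonneg (pow_nonneg ht 1) (pow_nonneg hs 2), mul_nonneg (pow_nonneg ht 0) (pow_nonneg hs 3)]

theorem I3 {p : ℝ} (h1 : 3 / 2 ≤ p) (h2 : p ≤ 2) :
    0 ≤ U p ((2 : ℝ) ^ p) + Vv p (2 ^ p) - 633 / 982 * Gg p (2 ^ p) := by
  have ht : 0 ≤ p - 3 / 2 := by linarith
  have ht' : p - 3 / 2 ≤ 1 / 2 := by linarith
  have hs : 0 ≤ 1 / 2 - (p - 3 / 2) := by linarith
  have hq := q_up32 ht ht'
  rw [show 3 / 2 + (p - 3 / 2) = p by ring] at hq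
  set q := (2 : ℝ) ^ p
  have hα : 0 ≤ -(-27 + 9 * p - 633 / 982 * (4 - 3 * p)) := by linarith
  have hm := mul_le_mul_of_nonneg_right hq hα
  unfold U Vv Gg
  obtain ⟨t, rfl⟩ : ∃ t, p = 3 / 2 + t := ⟨p - 3 / 2, by ring⟩
  rw [show 3 / 2 + t - 3 / 2 = t by ring] at *
  nlinarith [mul_nonneg (pow_nonneg ht 4) (pow_nonneg hs 0), mul_nonneg (pow_nonneg ht 3) (pow_nonneg hs 1),
    mul_nonneg (pow_nonneg ht 2) (pow_nonneg hs 2),
    mul_nonneg (pow_nonneg ht 1) (pow_nonneg hs 3), mul_nonneg (pow_nonneg ht 0) (pow_nonneg hs 4)]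

theorem J1 {p : ℝ} (h1 : 2 ≤ p) : 0 ≤ -Gg p ((2 : ℝ) ^ p) := by
  have hq : (4 : ℝ) ≤ (2 : ℝ) ^ p := by
    calc (4 : ℝ) = (2 : ℝ) ^ (2 : ℝ) := by norm_num
      _ ≤ _ := Real.rpow_le_rpow_of_exponent_le (by norm_num) h1
  unfold Gg
  nlinarith

theorem J2 {p : ℝ} (h1 : 2 ≤ p) (h2 : p ≤ 29 / 10) :
    0 ≤ U p ((2 : ℝ) ^ p) + 387 / 338 * Gg p (2 ^ p) := by
  have ht : 0 ≤ p - 2 := by linarith
  have hs : 0 ≤ 9 / 10 - (p - 2) := by linarith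
  have hq := q_lo2 ht
  rw [show 2 + (p - 2) = p by ring] at hq
  set q := (2 : ℝ) ^ p
  have hα : 0 ≤ 27 - 9 / 2 * p + 387 / 338 * (4 - 3 * p) := by linarith
  have hm := mul_le_mul_of_nonneg_right hq hα
  unfold U Gg
  obtain ⟨t, rfl⟩ : ∃ t, p = 2 + t := ⟨p - 2, by ring⟩
  rw [show 2 + t - 2 = t by ring] at *
  nlinarith [mul_nonneg (pow_nonneg ht 5) (pow_nonneg hs 0), mul_nonneg (pow_nonneg ht 4) (pow_nonneg hs 1),
    mul_nonneg (pow_nonneg ht 3) (pow_nonneg hs 2), mul_nonneg (pow_nonneg ht 2) (pow_nonneg hs 3),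
    mul_nonneg (pow_nonneg ht 1) (pow_nonneg hs 4), mul_nonneg (pow_nonneg ht 0) (pow_nonneg hs 5)]

theorem J3 {p : ℝ} (h1 : 2 ≤ p) (h2 : p ≤ 29 / 10) :
    0 ≤ U p ((2 : ℝ) ^ p) + Vv p (2 ^ p) + 360 / 169 * Gg p (2 ^ p) := by
  have ht : 0 ≤ p - 2 := by linarith
  have ht' : p - 2 ≤ 1 := by linarith
  have hs : 0 ≤ 9 / 10 - (p - 2) := by linarith
  have hq := q_up2' ht ht'
  rw [show 2 + (p - 2) = p by ring] at hq
  set q := (2 : ℝ) ^ p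
  have hα : 0 ≤ -(-27 + 9 * p + 360 / 169 * (4 - 3 * p)) := by linarith
  have hm := mul_le_mul_of_nonneg_right hq hα
  unfold U Vv Gg
  obtain ⟨t, rfl⟩ : ∃ t, p = 2 + t := ⟨p - 2, by ring⟩
  rw [show 2 + t - 2 = t by ring] at *
  nlinarith [mul_nonneg (pow_nonneg ht 5) (pow_nonneg hs 0), mul_nonneg (pow_nonneg ht 4) (pow_nonneg hs 1),
    mul_nonneg (pow_nonneg ht 3) (pow_nonneg hs 2), mul_nonneg (pow_nonneg ht 2) (pow_nonneg hs 3),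
    mul_nonneg (pow_nonneg ht 1) (pow_nonneg hs 4), mul_nonneg (pow_nonneg ht 0) (pow_nonneg hs 5)]

end Pool.Agent.H122R2.N6.Maj
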