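import Pool.Agent.H122R2.N6.FinP0
import Pool.Agent.H122R2.N6.FinPA
import Pool.Agent.H122R2.N6.FinPB
import Pool.Agent.H122R2.N6.FinPC
import Pool.Agent.H122R2.N6.Wts
import Pool.Agent.H122R2.N6.Count

/-! The `p`-th powers of the codegrees of a `K_4^3`-free 3-graph, `3/2 ≤ p ≤ 29/10`. -/

set_option autoImplicit false
open Finset
open scoped Classical

namespace Pool.Agent.H122R2.N6

section
variable {V : Type} [Fintype V] {E : V → V → V → ℕ}

theorem dn_nonneg (E : V → V → V → ℕ) (a b : V) : 0 ≤ dn E a b := by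
  unfold dn
  positivity

open Maj in
theorem comb3 (hn : 0 < Fintype.card V) (p κ : ℝ) (f g h : V → V → ℝ) (α β γ : ℝ)
    (hα : 0 ≤ α) (hβ : 0 ≤ β) (hγ : 0 ≤ γ) (hs : α + β + γ = 3 * ((2 : ℝ) ^ p - 1))
    (hf : ∑ a, ∑ b, f a b ≤ 5 / 9 * (Fintype.card V : ℝ) ^ 2)
    (hg : ∑ a, ∑ b, g a b ≤ 5 / 9 * (Fintype.card V : ℝ) ^ 2)
    (hh : ∑ a, ∑ b, h a b ≤ 5 / 9 * (Fintype.card V : ℝ) ^ 2)
    (hM : ∀ a b, MM p (2 ^ p) κ (dn E a b) = (2 - (2 : ℝ) ^ p) + (α * f a b + β * g a b + γ * h a b))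
    (hmaj : ∀ d : ℝ, 0 ≤ d → d ^ p ≤ (1 / 3 : ℝ) ^ p * MM p (2 ^ p) κ d) :
    ∑ a, ∑ b, dn E a b ^ p ≤ (1 / 3 : ℝ) ^ p * ((1 + 2 * (2 : ℝ) ^ p) / 3) * (Fintype.card V : ℝ) ^ 2 := by
  have hθ : 0 < (1 / 3 : ℝ) ^ p := Real.rpow_pos_of_pos (by norm_num) _
  have h1 : ∑ a, ∑ b, dn E a b ^ p ≤
      ∑ a : V, ∑ b : V, (1 / 3 : ℝ) ^ p * ((2 - (2 : ℝ) ^ p) + (α * f a b + β * g a b + γ * h a b)) := by
    refine sum_le_sum fun a _ => sum_le_sum fun b _ => ?_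
    rw [← hM]
    exact hmaj _ (dn_nonneg E a b)
  have h2 : ∑ a : V, ∑ b : V, (1 / 3 : ℝ) ^ p * ((2 - (2 : ℝ) ^ p) + (α * f a b + β * g a b + γ * h a b))
      = (1 / 3 : ℝ) ^ p * ((2 - (2 : ℝ) ^ p) * (Fintype.card V : ℝ) ^ 2 + (α * ∑ a, ∑ b, f a b
        + β * ∑ a, ∑ b, g a b + γ * ∑ a, ∑ b, h a b)) := by
    simp only [← mul_sum, sum_add_distrib, sum_const, card_univ, nsmul_eq_mul]
    ring
  rw [h2] at h1
  have h3 : α * ∑ a, ∑ b, f a b + β * ∑ a, ∑ b, g a b + γ * ∑ a, ∑ b, h a b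
      ≤ 3 * ((2 : ℝ) ^ p - 1) * (5 / 9 * (Fintype.card V : ℝ) ^ 2) := by
    rw [← hs]
    have a1 := mul_le_mul_of_nonneg_left hf hα
    have a2 := mul_le_mul_of_nonneg_left hg hβ
    have a3 := mul_le_mul_of_nonneg_left hh hγ
    linarith
  refine h1.trans ?_
  rw [mul_assoc]
  refine mul_le_mul_of_nonneg_left ?_ hθ.le
  have : (1 + 2 * (2 : ℝ) ^ p) / 3 * (Fintype.card V : ℝ) ^ 2 =
      (2 - (2 : ℝ) ^ p) * (Fintype.card V : ℝ) ^ 2
        + 3 * ((2 : ℝ) ^ p - 1) * (5 / 9 * (Fintype.card V : ℝ) ^ 2) := by ring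
  rw [this]
  linarith

open Maj in
theorem lp_main (hE : Sy E) (hK : NoK4 E) (hn : 0 < Fintype.card V) (p : ℝ) (h1 : 3 / 2 ≤ p)
    (h2 : p ≤ 29 / 10) :
    ∑ a, ∑ b, dn E a b ^ p ≤ (1 / 3 : ℝ) ^ p * ((1 + 2 * (2 : ℝ) ^ p) / 3) * (Fintype.card V : ℝ) ^ 2 := by
  rcases le_total p 2 with h | h
  · refine comb3 hn p (9 / 8 * ((2 : ℝ) ^ p - 1)) _ _ _
      (750 / 491 * Gg p (2 ^ p)) ((U p (2 ^ p) - 447 / 491 * Gg p (2 ^ p)) / 2)
      ((U p (2 ^ p) + Vv p (2 ^ p) - 633 / 982 * Gg p (2 ^ p)) / 2)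
      (mul_nonneg (by norm_num) (I1 h1 h)) (div_nonneg (I2 h1 h) (by norm_num))
      (div_nonneg (I3 h1 h) (by norm_num)) ?_ (P0.avg hE hK hn) (PA.avg hE hK hn) (PB.avg hE hK hn)
      ?_ (fun d hd => maj5 p _ (by linarith) h (I0 h1 h) d hd)
    · unfold U Vv Gg
      ring
    · intro a b
      unfold MM ph U Vv Gg
      ring
  · refine comb3 hn p (3 / 8 * ((U p (2 ^ p) + 387 / 338 * Gg p (2 ^ p)) / 2
        + (U p (2 ^ p) + Vv p (2 ^ p) + 360 / 169 * Gg p (2 ^ p)) / 2)) _ _ _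
      (150 / 169 * -Gg p (2 ^ p)) ((U p (2 ^ p) + 387 / 338 * Gg p (2 ^ p)) / 2)
      ((U p (2 ^ p) + Vv p (2 ^ p) + 360 / 169 * Gg p (2 ^ p)) / 2)
      (mul_nonneg (by norm_num) (J1 h)) (div_nonneg (J2 h h2) (by norm_num))
      (div_nonneg (J3 h h2) (by norm_num)) ?_ (PC.avg hE hK hn) (PA.avg hE hK hn) (PB.avg hE hK hn)
      ?_ (fun d hd => maj4 p _ h (by linarith) ?_ d hd)
    · unfold U Vv Gg
      ring
    · intro a b
      unfold MM ph U Vv Gg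
      ring
    · have a1 := J2 h h2
      have a2 := J3 h h2
      linarith

theorem deg2_fsum_le {H : Finset (Finset V)} (hH : ∀ e ∈ H, e.card = 3) (f : ℕ → ℝ)
    (hf0 : ∀ k, 0 ≤ f k) (hf : Monotone f) :
    2 * ∑ P ∈ (univ : Finset V).powersetCard 2, f (deg2 H P) ≤ ∑ a, ∑ b, f (∑ c, tri H a b c) := by
  have h1 : ∑ p ∈ (univ : Finset V).offDiag, f (deg2 H {p.1, p.2}) ≤ ∑ a, ∑ b, f (∑ c, tri H a b c) := by
    rw [← Fintype.sum_prod_type' (f := fun a b => f (∑ c, tri H a b c))]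
    calc ∑ p ∈ (univ : Finset V).offDiag, f (deg2 H {p.1, p.2})
        ≤ ∑ p ∈ (univ : Finset V).offDiag, f (∑ c, tri H p.1 p.2 c) := by
          refine sum_le_sum fun p hp => ?_
          have hne := (mem_offDiag.mp hp).2.2
          exact hf (deg2_le hH hne)
      _ ≤ ∑ p : V × V, f (∑ c, tri H p.1 p.2 c) :=
          sum_le_sum_of_subset_of_nonneg (subset_univ _) fun _ _ _ => hf0 _
  refine le_trans ?_ h1
  rw [← sum_fiberwise_of_maps_to (s := (univ : Finset V).offDiag)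
    (t := (univ : Finset V).powersetCard 2) (g := fun p => ({p.1, p.2} : Finset V))
    (f := fun p => f (deg2 H {p.1, p.2})) ?_, mul_sum]
  · refine sum_le_sum fun P hP => ?_
    obtain ⟨x, y, hxy, rfl⟩ := card_eq_two.mp (mem_powersetCard.mp hP).2
    have h2 : ({(x, y), (y, x)} : Finset (V × V)).card = 2 := by
      rw [card_pair]
      intro h
      exact hxy (Prod.ext_iff.mp h).1
    calc 2 * f (deg2 H {x, y}) = ∑ p ∈ ({(x, y), (y, x)} : Finset (V × V)), f (deg2 H {x, y}) := by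
          rw [sum_const, h2, nsmul_eq_mul]
          norm_num
      _ ≤ ∑ p ∈ (univ : Finset V).offDiag.filter (fun p => ({p.1, p.2} : Finset V) = {x, y}),
          f (deg2 H {x, y}) := by
          refine sum_le_sum_of_subset_of_nonneg ?_ fun _ _ _ => hf0 _
          intro p hp
          simp only [mem_insert, mem_singleton] at hp
          rw [mem_filter, mem_offDiag]
          rcases hp with rfl | rfl
          · exact ⟨⟨mem_univ _, mem_univ _, hxy⟩, rfl⟩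
          · exact ⟨⟨mem_univ _, mem_univ _, hxy.symm⟩, pair_comm _ _⟩
      _ = ∑ p ∈ (univ : Finset V).offDiag.filter (fun p => ({p.1, p.2} : Finset V) = {x, y}),
          f (deg2 H {p.1, p.2}) := by
          refine sum_congr rfl fun p hp => ?_
          rw [(mem_filter.mp hp).2]
  · intro p hp
    rw [mem_powersetCard]
    exact ⟨subset_univ _, card_pair (mem_offDiag.mp hp).2.2⟩

/-- the bound in terms of the codegrees of the pairs -/
theorem lp_pairs {H : Finset (Finset V)} (hH : ∀ e ∈ H, e.card = 3) (hF : K43Free H) (p : ℝ)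
    (h1 : 3 / 2 ≤ p) (h2 : p ≤ 29 / 10) :
    ∑ P ∈ (univ : Finset V).powersetCard 2, (deg2 H P : ℝ) ^ p
      ≤ (1 + 2 ^ (p + 1)) / (2 * 3 ^ (p + 1)) * (Fintype.card V : ℝ) ^ (p + 2) := by
  rcases Nat.eq_zero_or_pos (Fintype.card V) with h0 | hn
  · haveI := Fintype.card_eq_zero_iff.mp h0
    have : (univ : Finset V).powersetCard 2 = ∅ := by
      rw [powersetCard_eq_empty, card_univ, h0]
      norm_num
    rw [this, sum_empty]
    positivity
  have hp0 : 0 < p := by linarith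
  have hn' : (0 : ℝ) < (Fintype.card V : ℝ) := by exact_mod_cast hn
  have hm := lp_main (tri_sy H) (tri_noK4 hH hF) hn p h1 h2
  have hd := deg2_fsum_le hH (fun k : ℕ => (k : ℝ) ^ p) (fun k => by positivity)
    (fun a b hab => Real.rpow_le_rpow (by positivity) (by exact_mod_cast hab) hp0.le)
  have e1 : ∑ a, ∑ b, ((∑ c, tri H a b c : ℕ) : ℝ) ^ p
      = (Fintype.card V : ℝ) ^ p * ∑ a, ∑ b, dn (tri H) a b ^ p := by
    rw [mul_sum]
    refine sum_congr rfl fun a _ => ?_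
    rw [mul_sum]
    refine sum_congr rfl fun b _ => ?_
    rw [← Real.mul_rpow hn'.le (dn_nonneg _ a b)]
    unfold dn
    congr 1
    push_cast
    field_simp
  rw [e1] at hd
  have e2 : (1 + (2 : ℝ) ^ (p + 1)) / (2 * 3 ^ (p + 1)) * (Fintype.card V : ℝ) ^ (p + 2)
      = 1 / 2 * ((Fintype.card V : ℝ) ^ p * ((1 / 3 : ℝ) ^ p * ((1 + 2 * (2 : ℝ) ^ p) / 3)
        * (Fintype.card V : ℝ) ^ 2)) := by
    rw [Real.rpow_add_one (by norm_num), Real.rpow_add_one (by norm_num),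
      Real.rpow_add hn', Real.rpow_two, Real.div_rpow (by norm_num) (by norm_num), Real.one_rpow]
    have h3 : (0 : ℝ) < 3 ^ p := Real.rpow_pos_of_pos (by norm_num) _
    field_simp
  rw [e2]
  have h5 := mul_le_mul_of_nonneg_left hm (Real.rpow_nonneg hn'.le p)
  linarith

end
end Pool.Agent.H122R2.N6
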