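import Pool.Agent.H122R2.N6.Leaf

set_option autoImplicit false
set_option maxRecDepth 100000
set_option maxHeartbeats 4000000
open Finset

namespace Pool.Agent.H122R2.N6

theorem Bt_lt {n : ℕ} (h : Bt n) : n < 2 := by rcases h with rfl | rfl <;> norm_num

theorem cd4_lt {x y z w : ℕ} (hx : Bt x) (hy : Bt y) (hz : Bt z) (hw : Bt w) : cd4 x y z w < 16 := by
  have := Bt_lt hx; have := Bt_lt hy; have := Bt_lt hz; have := Bt_lt hw
  show x + (2 * y + (4 * z + 8 * w)) < 16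
  omega

theorem cd6_lt {x y z u v w : ℕ} (hx : Bt x) (hy : Bt y) (hz : Bt z) (hu : Bt u) (hv : Bt v)
    (hw : Bt w) : cd6 x y z u v w < 64 := by
  have := Bt_lt hx; have := Bt_lt hy; have := Bt_lt hz
  have := Bt_lt hu; have := Bt_lt hv; have := Bt_lt hw
  show x + (2 * y + (4 * z + (8 * u + (16 * v + 32 * w)))) < 64
  omega

section
variable {V : Type} [Fintype V]

theorem psum (F : V → V → V → V → V → V → ℤ) (g : Fin 6 → Fin 6) (hg : Function.Bijective g) :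
    ∑ x : Fin 6 → V, F (x (g 0)) (x (g 1)) (x (g 2)) (x (g 3)) (x (g 4)) (x (g 5))
      = ∑ x : Fin 6 → V, F (x 0) (x 1) (x 2) (x 3) (x 4) (x 5) := by
  have h := Equiv.sum_comp (Equiv.arrowCongr (Equiv.ofBijective g hg).symm (Equiv.refl V))
    (fun x => F (x 0) (x 1) (x 2) (x 3) (x 4) (x 5))
  rw [← h]
  rfl

def e6 (V : Type) : (Fin 6 → V) ≃ V × V × V × V × V × V where
  toFun x := (x 0, x 1, x 2, x 3, x 4, x 5)
  invFun p := ![p.1, p.2.1, p.2.2.1, p.2.2.2.1, p.2.2.2.2.1, p.2.2.2.2.2]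
  left_inv x := by funext i; fin_cases i <;> rfl
  right_inv p := rfl

theorem conv6 (F : V → V → V → V → V → V → ℤ) :
    ∑ x : Fin 6 → V, F (x 0) (x 1) (x 2) (x 3) (x 4) (x 5)
      = ∑ a, ∑ b, ∑ c, ∑ d, ∑ e, ∑ f, F a b c d e f := by
  rw [← Equiv.sum_comp (e6 V).symm]
  simp only [Fintype.sum_prod_type]
  rfl

theorem psd {ι : Type} [Fintype ι] (K : ℕ) (W : ℕ → ℕ) (u : ℕ → ι → ℤ) :
    0 ≤ ∑ d, ∑ e, ∑ k ∈ range K, (W k : ℤ) * u k d * u k e := by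
  have h : ∑ d, ∑ e, ∑ k ∈ range K, (W k : ℤ) * u k d * u k e
      = ∑ k ∈ range K, (W k : ℤ) * ((∑ d, u k d) * ∑ e, u k e) := by
    calc ∑ d, ∑ e, ∑ k ∈ range K, (W k : ℤ) * u k d * u k e
        = ∑ d, ∑ k ∈ range K, ∑ e, (W k : ℤ) * u k d * u k e := by
          refine sum_congr rfl fun d _ => ?_
          rw [sum_comm]
      _ = ∑ k ∈ range K, ∑ d, ∑ e, (W k : ℤ) * u k d * u k e := sum_comm
      _ = _ := by
          refine sum_congr rfl fun k _ => ?_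
          rw [Finset.sum_mul_sum, mul_sum]
          refine sum_congr rfl fun d _ => ?_
          rw [mul_sum]
          exact sum_congr rfl fun e _ => by ring
  rw [h]
  exact sum_nonneg fun k _ => mul_nonneg (by positivity) (mul_self_nonneg _)

variable (E : V → V → V → ℕ)

def Sv (t : ℕ → ℤ) : ℤ :=
  ∑ a, ∑ b, ∑ c, ∑ d, t (cd4 (E a b c) (E a b d) (E a c d) (E b c d))

theorem lower4 (hE : Sy E) (K : ℕ) (q4 : ℕ → ℕ → ℕ → ℕ) (W : ℕ → ℕ → ℕ) (l : ℕ → ℕ → ℕ → ℕ) (B O4 : ℤ)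
    (t : ℕ → ℤ)
    (hq4 : ∀ c i j, c < 16 → i < 64 → j < 64 → (q4 c i j : ℤ) =
      ∑ k ∈ range K, (W c k : ℤ) * ((l c i k : ℤ) - B) * ((l c j k : ℤ) - B) + (O4 + t c)) :
    O4 * (Fintype.card V : ℤ) ^ 6 + (Fintype.card V : ℤ) ^ 2 * Sv E t
      ≤ ∑ x : Fin 6 → V, (F4 E q4 (x 0) (x 1) (x 2) (x 3) (x 4) (x 5) : ℤ) := by
  rw [conv6 (fun a b c d e f => (F4 E q4 a b c d e f : ℤ))]
  have e1 : O4 * (Fintype.card V : ℤ) ^ 6 + (Fintype.card V : ℤ) ^ 2 * Sv E t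
      = ∑ a, ∑ b, ∑ c, ∑ d, ∑ e : V, ∑ f : V,
          (O4 + t (cd4 (E a b c) (E a b d) (E a c d) (E b c d))) := by
    unfold Sv
    simp only [sum_const, card_univ, nsmul_eq_mul, sum_add_distrib, mul_sum]
    have : ∀ a b c d : V, (Fintype.card V : ℤ) ^ 2 * t (cd4 (E a b c) (E a b d) (E a c d) (E b c d))
        = (Fintype.card V : ℤ) * ((Fintype.card V : ℤ) * t (cd4 (E a b c) (E a b d) (E a c d) (E b c d))) :=
      fun a b c d => by ring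
    simp only [this, mul_add, sum_add_distrib, sum_const, card_univ, nsmul_eq_mul]
    ring
  rw [e1]
  refine sum_le_sum fun a _ => sum_le_sum fun b _ => sum_le_sum fun c _ => sum_le_sum fun d _ => ?_
  have e2 : ∀ e f : V, (F4 E q4 a b c d e f : ℤ) = _ := fun e f =>
    hq4 _ _ _ (cd4_lt (hE.b a b c) (hE.b a b d) (hE.b a c d) (hE.b b c d))
      (cd6_lt (hE.b a b e) (hE.b a c e) (hE.b b c e) (hE.b a d e) (hE.b b d e) (hE.b c d e))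
      (cd6_lt (hE.b a b f) (hE.b a c f) (hE.b b c f) (hE.b a d f) (hE.b b d f) (hE.b c d f))
  simp only [e2, sum_add_distrib]
  have p := psd K (fun k => W (cd4 (E a b c) (E a b d) (E a c d) (E b c d)) k)
    (fun k e => (l (cd4 (E a b c) (E a b d) (E a c d) (E b c d))
      (cd6 (E a b e) (E a c e) (E b c e) (E a d e) (E b d e) (E c d e)) k : ℤ) - B)
  linarith

theorem lower2 (hE : Sy E) (K : ℕ) (q2 : ℕ → ℕ → ℕ) (W : ℕ → ℕ) (l : ℕ → ℕ → ℕ) (B O2 : ℤ)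
    (hq2 : ∀ i j, i < 16 → j < 16 → (q2 i j : ℤ) =
      ∑ k ∈ range K, (W k : ℤ) * ((l i k : ℤ) - B) * ((l j k : ℤ) - B) + O2) :
    O2 * (Fintype.card V : ℤ) ^ 6
      ≤ ∑ x : Fin 6 → V, (F2 E q2 (x 0) (x 1) (x 2) (x 3) (x 4) (x 5) : ℤ) := by
  rw [conv6 (fun a b c d e f => (F2 E q2 a b c d e f : ℤ))]
  have e1 : O2 * (Fintype.card V : ℤ) ^ 6
      = ∑ a : V, ∑ b : V, ∑ c : V, ∑ d : V, ∑ e : V, ∑ f : V, O2 := by
    simp only [sum_const, card_univ, nsmul_eq_mul]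
    ring
  rw [e1]
  refine sum_le_sum fun a _ => sum_le_sum fun b _ => ?_
  have e2 : ∀ c d e f : V, (F2 E q2 a b c d e f : ℤ) = _ := fun c d e f =>
    hq2 _ _ (cd4_lt (hE.b a b c) (hE.b a b d) (hE.b a c d) (hE.b b c d))
      (cd4_lt (hE.b a b e) (hE.b a b f) (hE.b a e f) (hE.b b e f))
  simp only [e2, sum_add_distrib]
  have p := psd (ι := V × V) K W
    (fun k q => (l (cd4 (E a b q.1) (E a b q.2) (E a q.1 q.2) (E b q.1 q.2)) k : ℤ) - B)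
  simp only [Fintype.sum_prod_type] at p
  linarith

theorem sumL4 (q4 : ℕ → ℕ → ℕ → ℕ) :
    ∑ x : Fin 6 → V, (L4 E q4 (x 0) (x 1) (x 2) (x 3) (x 4) (x 5) : ℤ)
      = 15 * ∑ x : Fin 6 → V, (F4 E q4 (x 0) (x 1) (x 2) (x 3) (x 4) (x 5) : ℤ) := by
  have f4 : ∀ i0 i1 i2 i3 i4 i5 : Fin 6, Function.Injective ![i0, i1, i2, i3, i4, i5] →
      ∑ x : Fin 6 → V, (F4 E q4 (x i0) (x i1) (x i2) (x i3) (x i4) (x i5) : ℤ)
      = ∑ x : Fin 6 → V, (F4 E q4 (x 0) (x 1) (x 2) (x 3) (x 4) (x 5) : ℤ) :=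
    fun i0 i1 i2 i3 i4 i5 hg =>
      psum (fun a b c d e f => (F4 E q4 a b c d e f : ℤ)) ![i0, i1, i2, i3, i4, i5]
        (Finite.injective_iff_bijective.mp hg)
  simp only [L4, Nat.cast_add, sum_add_distrib]
  rw [f4 0 1 2 4 3 5 (by decide), f4 0 1 2 5 3 4 (by decide), f4 0 1 3 4 2 5 (by decide), f4 0 1 3 5 2 4 (by decide), f4 0 1 4 5 2 3 (by decide), f4 0 2 3 4 1 5 (by decide), f4 0 2 3 5 1 4 (by decide), f4 0 2 4 5 1 3 (by decide), f4 0 3 4 5 1 2 (by decide), f4 1 2 3 4 0 5 (by decide), f4 1 2 3 5 0 4 (by decide), f4 1 2 4 5 0 3 (by decide), f4 1 3 4 5 0 2 (by decide), f4 2 3 4 5 0 1 (by decide)]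
  ring

def G2 (q2 : ℕ → ℕ → ℕ) (a b c d e f : V) : ℕ :=
  F2 E q2 a b c d e f + (F2 E q2 a b c e d f + F2 E q2 a b c f d e)

theorem L2_eq (q2 : ℕ → ℕ → ℕ) (a b c d e f : V) : L2 E q2 a b c d e f =
    (G2 E q2 a b c d e f +
    (G2 E q2 a c b d e f +
    (G2 E q2 a d b c e f +
    (G2 E q2 a e b c d f +
    (G2 E q2 a f b c d e +
    (G2 E q2 b c a d e f +
    (G2 E q2 b d a c e f +
    (G2 E q2 b e a c d f +
    (G2 E q2 b f a c d e +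
    (G2 E q2 c d a b e f +
    (G2 E q2 c e a b d f +
    (G2 E q2 c f a b d e +
    (G2 E q2 d e a b c f +
    (G2 E q2 d f a b c e +
    G2 E q2 e f a b c d)))))))))))))) := by
  unfold L2 G2
  ring

theorem sumG2 (q2 : ℕ → ℕ → ℕ) :
    ∑ x : Fin 6 → V, (G2 E q2 (x 0) (x 1) (x 2) (x 3) (x 4) (x 5) : ℤ)
      = 3 * ∑ x : Fin 6 → V, (F2 E q2 (x 0) (x 1) (x 2) (x 3) (x 4) (x 5) : ℤ) := by
  have f2 : ∀ i0 i1 i2 i3 i4 i5 : Fin 6, Function.Injective ![i0, i1, i2, i3, i4, i5] →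
      ∑ x : Fin 6 → V, (F2 E q2 (x i0) (x i1) (x i2) (x i3) (x i4) (x i5) : ℤ)
      = ∑ x : Fin 6 → V, (F2 E q2 (x 0) (x 1) (x 2) (x 3) (x 4) (x 5) : ℤ) :=
    fun i0 i1 i2 i3 i4 i5 hg =>
      psum (fun a b c d e f => (F2 E q2 a b c d e f : ℤ)) ![i0, i1, i2, i3, i4, i5]
        (Finite.injective_iff_bijective.mp hg)
  simp only [G2, Nat.cast_add, sum_add_distrib]
  rw [f2 0 1 2 4 3 5 (by decide), f2 0 1 2 5 3 4 (by decide)]
  ring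

theorem sumL2 (q2 : ℕ → ℕ → ℕ) :
    ∑ x : Fin 6 → V, (L2 E q2 (x 0) (x 1) (x 2) (x 3) (x 4) (x 5) : ℤ)
      = 45 * ∑ x : Fin 6 → V, (F2 E q2 (x 0) (x 1) (x 2) (x 3) (x 4) (x 5) : ℤ) := by
  have g2 : ∀ i0 i1 i2 i3 i4 i5 : Fin 6, Function.Injective ![i0, i1, i2, i3, i4, i5] →
      ∑ x : Fin 6 → V, (G2 E q2 (x i0) (x i1) (x i2) (x i3) (x i4) (x i5) : ℤ)
      = ∑ x : Fin 6 → V, (G2 E q2 (x 0) (x 1) (x 2) (x 3) (x 4) (x 5) : ℤ) :=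
    fun i0 i1 i2 i3 i4 i5 hg =>
      psum (fun a b c d e f => (G2 E q2 a b c d e f : ℤ)) ![i0, i1, i2, i3, i4, i5]
        (Finite.injective_iff_bijective.mp hg)
  simp only [L2_eq, Nat.cast_add, sum_add_distrib]
  rw [g2 0 2 1 3 4 5 (by decide), g2 0 3 1 2 4 5 (by decide), g2 0 4 1 2 3 5 (by decide), g2 0 5 1 2 3 4 (by decide), g2 1 2 0 3 4 5 (by decide), g2 1 3 0 2 4 5 (by decide), g2 1 4 0 2 3 5 (by decide), g2 1 5 0 2 3 4 (by decide), g2 2 3 0 1 4 5 (by decide), g2 2 4 0 1 3 5 (by decide), g2 2 5 0 1 3 4 (by decide), g2 3 4 0 1 2 5 (by decide), g2 3 5 0 1 2 4 (by decide), g2 4 5 0 1 2 3 (by decide), sumG2]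
  ring

theorem bound (hE : Sy E) (K K2 C : ℕ) (q4 : ℕ → ℕ → ℕ → ℕ) (W : ℕ → ℕ → ℕ) (l : ℕ → ℕ → ℕ → ℕ)
    (q2 : ℕ → ℕ → ℕ) (W2 : ℕ → ℕ) (l2 : ℕ → ℕ → ℕ) (B O4 O2 : ℤ) (t : ℕ → ℤ)
    (hq4 : ∀ c i j, c < 16 → i < 64 → j < 64 → (q4 c i j : ℤ) =
      ∑ k ∈ range K, (W c k : ℤ) * ((l c i k : ℤ) - B) * ((l c j k : ℤ) - B) + (O4 + t c))
    (hq2 : ∀ i j, i < 16 → j < 16 → (q2 i j : ℤ) =
      ∑ k ∈ range K2, (W2 k : ℤ) * ((l2 i k : ℤ) - B) * ((l2 j k : ℤ) - B) + O2)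
    (hleaf : ∀ a b c d e f : V, L4 E q4 a b c d e f + L2 E q2 a b c d e f ≤ C) :
    15 * ((Fintype.card V : ℤ) ^ 2 * Sv E t) + (15 * O4 + 45 * O2) * (Fintype.card V : ℤ) ^ 6
      ≤ C * (Fintype.card V : ℤ) ^ 6 := by
  have A4 := lower4 E hE K q4 W l B O4 t hq4
  have A2 := lower2 E hE K2 q2 W2 l2 B O2 hq2
  have key : ∑ x : Fin 6 → V, ((L4 E q4 (x 0) (x 1) (x 2) (x 3) (x 4) (x 5) : ℤ)
      + (L2 E q2 (x 0) (x 1) (x 2) (x 3) (x 4) (x 5) : ℤ)) ≤ C * (Fintype.card V : ℤ) ^ 6 := by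
    calc _ ≤ ∑ x : Fin 6 → V, (C : ℤ) :=
          sum_le_sum fun x _ => by exact_mod_cast hleaf (x 0) (x 1) (x 2) (x 3) (x 4) (x 5)
      _ = C * (Fintype.card V : ℤ) ^ 6 := by
          rw [sum_const, card_univ, Fintype.card_fun, Fintype.card_fin, nsmul_eq_mul]
          push_cast
          ring
  rw [sum_add_distrib, sumL4 E q4, sumL2 E q2] at key
  linarith

end
end Pool.Agent.H122R2.N6
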