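import Pool.Agent.H122R2.N6.ChkC
import Pool.Agent.H122R2.N6.PsdC
import Pool.Agent.H122R2.N6.Bound

set_option autoImplicit false
set_option maxRecDepth 100000
set_option maxHeartbeats 4000000
open Finset

namespace Pool.Agent.H122R2.N6.C

theorem hc (b012 b013 b023 b123 b014 b024 b124 b034 b134 b234 : ℕ) (hb012 : Bt b012) (hb013 : Bt b013) (hb023 : Bt b023) (hb123 : Bt b123) (hb014 : Bt b014) (hb024 : Bt b024) (hb124 : Bt b124) (hb034 : Bt b034) (hb134 : Bt b134) (hb234 : Bt b234) (ht : tg b012 b013 b023 b123 b014 b024 b124 b034 b134 b234 = 4) :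
    chk q4 q2 CST b012 b013 b023 b123 b014 b024 b124 b034 b134 b234 = true := by
  have h : part b012 b013 = true := by
    rcases hb012 with rfl | rfl <;> rcases hb013 with rfl | rfl
    exacts [part00, part01, part10, part11]
  have h2 := (B2_true (B2_true (B2_true (B2_true (B2_true (B2_true (B2_true (B2_true h hb023) hb123) hb014) hb024) hb124) hb034) hb134) hb234)
  refine or_false_left h2 ?_
  rw [ht]
  rfl

theorem rng : (nall 16 fun c => and (Nat.blt (rho c) 4) (nall 64 fun i => Nat.blt (pc c i) 64)) = true := by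
  decide +kernel

theorem rho_lt {c : ℕ} (h : c < 16) : rho c < 4 := by
  have := nall_true rng c h
  rw [Bool.and_eq_true] at this
  exact Nat.le_of_ble_eq_true this.1

theorem pc_lt {c i : ℕ} (h : c < 16) (hi : i < 64) : pc c i < 64 := by
  have := nall_true rng c h
  rw [Bool.and_eq_true] at this
  exact Nat.le_of_ble_eq_true (nall_true this.2 i hi)

theorem g4_all {r i j : ℕ} (hr : r < 4) (hi : i < 64) (hj : j < 64) : g4 r i j = true := by
  have h : chk4 r = true := by
    interval_cases r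
    exacts [cp0, cp1, cp2, cp3]
  exact nall_true (nall_true h i hi) j hj

theorem expand (s : Finset ℕ) (w u v : ℕ → ℕ) (B : ℤ) :
    ∑ k ∈ s, (w k : ℤ) * ((u k : ℤ) - B) * ((v k : ℤ) - B) =
      ∑ k ∈ s, (w k : ℤ) * ((u k : ℤ) * (v k : ℤ)) + B ^ 2 * ∑ k ∈ s, (w k : ℤ)
        - B * (∑ k ∈ s, (w k : ℤ) * (u k : ℤ) + ∑ k ∈ s, (w k : ℤ) * (v k : ℤ)) := by
  rw [mul_add, mul_sum, mul_sum, mul_sum, ← sum_add_distrib, ← sum_add_distrib, ← sum_sub_distrib]
  exact sum_congr rfl fun k _ => by ring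

theorem hq4 (c i j : ℕ) (hc : c < 16) (hi : i < 64) (hj : j < 64) : (q4 c i j : ℤ) =
    ∑ k ∈ range 128, (w4 (rho c) k : ℤ) * ((l4 (rho c) (pc c i) k : ℤ) - 134217728) *
      ((l4 (rho c) (pc c j) k : ℤ) - 134217728) + (9444732965739290427392 + (tr (rho c) : ℤ)) := by
  have h := Nat.eq_of_beq_eq_true (g4_all (rho_lt hc) (pc_lt hc hi) (pc_lt hc hj))
  unfold ll sw sl at h
  rw [nsum_eq, nsum_eq, nsum_eq, nsum_eq] at h
  have h2 := congrArg (fun n : ℕ => (n : ℤ)) h
  simp only [Nat.add_eq, Nat.mul_eq] at h2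
  push_cast at h2
  rw [expand (range 128) (fun k => w4 (rho c) k) (fun k => l4 (rho c) (pc c i) k)
    (fun k => l4 (rho c) (pc c j) k) 134217728]
  have h3 : (q4 c i j : ℤ) = (tq (rho c) (pc c i) (pc c j) : ℤ) := rfl
  rw [h3]
  linarith

theorem hq2 (i j : ℕ) (hi : i < 16) (hj : j < 16) : (q2 i j : ℤ) =
    ∑ k ∈ range 22, (w2 k : ℤ) * ((l2 i k : ℤ) - 134217728) * ((l2 j k : ℤ) - 134217728) + 2361183241434822606848 := by
  have h := Nat.eq_of_beq_eq_true (nall_true (nall_true cpb i hi) j hj)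
  unfold ll2 sw2 sl2 at h
  rw [nsum_eq, nsum_eq, nsum_eq, nsum_eq] at h
  have h2 := congrArg (fun n : ℕ => (n : ℤ)) h
  simp only [Nat.add_eq, Nat.mul_eq] at h2
  push_cast at h2
  rw [expand (range 22) (fun k => w2 k) (fun k => l2 i k) (fun k => l2 j k) 134217728]
  linarith

/-- the objective in terms of the number of edges of the quadruple -/
def gg (s : ℕ) : ℕ := if s = 1 then 9 else if s = 2 then 24 else if s = 3 then 45 else 0

theorem tr_eq {p q r s : ℕ} (hp : Bt p) (hq : Bt q) (hr : Bt r) (hs : Bt s) (h : k4b p q r s = false) :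
    tr (rho (cd4 p q r s)) = 44961880393899835392 * gg (p + q + r + s) := by
  rcases hp with rfl | rfl <;> rcases hq with rfl | rfl <;> rcases hr with rfl | rfl <;>
    rcases hs with rfl | rfl <;> first | decide +kernel | exact absurd h (by decide)

theorem main {V : Type} [Fintype V] {E : V → V → V → ℕ} (hE : Sy E) (hK : NoK4 E) :
    ∑ a : V, ∑ b : V, ∑ c : V, ∑ d : V, (gg (E a b c + E a b d + E a c d + E b c d) : ℤ)
      ≤ 32 * (Fintype.card V : ℤ) ^ 4 := by
  have hb := bound E hE 128 22 CST q4 (fun c k => w4 (rho c) k) (fun c i k => l4 (rho c) (pc c i) k)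
    q2 w2 l2 134217728 9444732965739290427392 2361183241434822606848 (fun c => (tr (rho c) : ℤ)) hq4 hq2
    (leaf_all hE hK cs4 cs2 hc)
  have hS : Sv E (fun c => (tr (rho c) : ℤ)) = 44961880393899835392 *
      ∑ a : V, ∑ b : V, ∑ c : V, ∑ d : V, (gg (E a b c + E a b d + E a c d + E b c d) : ℤ) := by
    unfold Sv
    simp only [mul_sum]
    refine sum_congr rfl fun a _ => sum_congr rfl fun b _ => sum_congr rfl fun c _ =>
      sum_congr rfl fun d _ => ?_
    rw [tr_eq (hE.b a b c) (hE.b a b d) (hE.b a c d) (hE.b b c d) (hK a b c d)]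
    push_cast
    ring
  rw [hS] at hb
  have hC : (CST : ℤ) = 269505942939728294707200 := rfl
  rw [hC] at hb
  set S := ∑ a : V, ∑ b : V, ∑ c : V, ∑ d : V, (gg (E a b c + E a b d + E a c d + E b c d) : ℤ) with hSd
  rcases Nat.eq_zero_or_pos (Fintype.card V) with h0 | h0
  · haveI := Fintype.card_eq_zero_iff.mp h0
    have : S = 0 := by rw [hSd]; exact sum_of_isEmpty _
    rw [this, h0]
    norm_num
  · have hn : (0 : ℤ) < (Fintype.card V : ℤ) := by exact_mod_cast h0
    have h1 : (Fintype.card V : ℤ) ^ 2 * S ≤ (Fintype.card V : ℤ) ^ 2 * (32 * (Fintype.card V : ℤ) ^ 4) := by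
      have e : (Fintype.card V : ℤ) ^ 2 * (32 * (Fintype.card V : ℤ) ^ 4) = 32 * (Fintype.card V : ℤ) ^ 6 := by ring
      rw [e]
      have e2 : 15 * ((Fintype.card V : ℤ) ^ 2 * (44961880393899835392 * S)) = 674428205908497530880 * ((Fintype.card V : ℤ) ^ 2 * S) := by ring
      rw [e2] at hb
      linarith
    exact le_of_mul_le_mul_left h1 (by positivity)

end Pool.Agent.H122R2.N6.C
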