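import Pool.Agent.H122R2.N6.Sym

set_option autoImplicit false
set_option maxRecDepth 100000
set_option maxHeartbeats 4000000
open Finset

namespace Pool.Agent.H122R2.N6

/-- symmetric 0/1-valued functions of three vertices -/
structure Sy {V : Type} (E : V → V → V → ℕ) : Prop where
  b : ∀ x y z, Bt (E x y z)
  h213 : ∀ x y z, E y x z = E x y z
  h132 : ∀ x y z, E x z y = E x y z

section
variable {V : Type} {E : V → V → V → ℕ}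

theorem Sy.h231 (h : Sy E) (x y z : V) : E y z x = E x y z := by rw [h.h132, h.h213]
theorem Sy.h312 (h : Sy E) (x y z : V) : E z x y = E x y z := by rw [h.h213, h.h132]

theorem sym4_all {q4 : ℕ → ℕ → ℕ → ℕ} (hs : sym4 q4 = true) (p0 p1 p2 p3 i0 i1 i2 i3 i4 i5 j0 j1 j2 j3 j4 j5 : ℕ)
    (hp0 : Bt p0) (hp1 : Bt p1) (hp2 : Bt p2) (hp3 : Bt p3) (hi0 : Bt i0) (hi1 : Bt i1) (hi2 : Bt i2) (hi3 : Bt i3) (hi4 : Bt i4) (hi5 : Bt i5) (hj0 : Bt j0) (hj1 : Bt j1) (hj2 : Bt j2) (hj3 : Bt j3) (hj4 : Bt j4) (hj5 : Bt j5) :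
    (q4 (cd4 p0 p1 p3 p2) (cd6 i0 i2 i1 i4 i3 i5) (cd6 j0 j2 j1 j4 j3 j5) = q4 (cd4 p0 p1 p2 p3) (cd6 i0 i1 i2 i3 i4 i5) (cd6 j0 j1 j2 j3 j4 j5)) ∧ (q4 (cd4 p0 p2 p1 p3) (cd6 i1 i0 i2 i3 i5 i4) (cd6 j1 j0 j2 j3 j5 j4) = q4 (cd4 p0 p1 p2 p3) (cd6 i0 i1 i2 i3 i4 i5) (cd6 j0 j1 j2 j3 j4 j5)) ∧ (q4 (cd4 p1 p0 p2 p3) (cd6 i0 i3 i4 i1 i2 i5) (cd6 j0 j3 j4 j1 j2 j5) = q4 (cd4 p0 p1 p2 p3) (cd6 i0 i1 i2 i3 i4 i5) (cd6 j0 j1 j2 j3 j4 j5)) ∧ (q4 (cd4 p0 p1 p2 p3) (cd6 j0 j1 j2 j3 j4 j5) (cd6 i0 i1 i2 i3 i4 i5) = q4 (cd4 p0 p1 p2 p3) (cd6 i0 i1 i2 i3 i4 i5) (cd6 j0 j1 j2 j3 j4 j5)) := by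
  have h := (B2_true (B2_true (B2_true (B2_true (B2_true (B2_true (B2_true (B2_true (B2_true (B2_true (B2_true (B2_true (B2_true (B2_true (B2_true (B2_true hs hp0) hp1) hp2) hp3) hi0) hi1) hi2) hi3) hi4) hi5) hj0) hj1) hj2) hj3) hj4) hj5)
  simp only [Bool.and_eq_true] at h
  exact ⟨Nat.eq_of_beq_eq_true h.1, Nat.eq_of_beq_eq_true h.2.1, Nat.eq_of_beq_eq_true h.2.2.1,
    Nat.eq_of_beq_eq_true h.2.2.2⟩

theorem sym2_all {q2 : ℕ → ℕ → ℕ} (hs : sym2 q2 = true) (i0 i1 i2 i3 j0 j1 j2 j3 : ℕ)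
    (hi0 : Bt i0) (hi1 : Bt i1) (hi2 : Bt i2) (hi3 : Bt i3) (hj0 : Bt j0) (hj1 : Bt j1) (hj2 : Bt j2) (hj3 : Bt j3) :
    (q2 (cd4 i0 i1 i3 i2) (cd4 j0 j1 j3 j2) = q2 (cd4 i0 i1 i2 i3) (cd4 j0 j1 j2 j3)) ∧ (q2 (cd4 i1 i0 i2 i3) (cd4 j0 j1 j2 j3) = q2 (cd4 i0 i1 i2 i3) (cd4 j0 j1 j2 j3)) ∧ (q2 (cd4 j0 j1 j2 j3) (cd4 i0 i1 i2 i3) = q2 (cd4 i0 i1 i2 i3) (cd4 j0 j1 j2 j3)) := by
  have h := (B2_true (B2_true (B2_true (B2_true (B2_true (B2_true (B2_true (B2_true hs hi0) hi1) hi2) hi3) hj0) hj1) hj2) hj3)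
  simp only [Bool.and_eq_true] at h
  exact ⟨Nat.eq_of_beq_eq_true h.1, Nat.eq_of_beq_eq_true h.2.1, Nat.eq_of_beq_eq_true h.2.2⟩

theorem F4_s1 (hE : Sy E) {q4 : ℕ → ℕ → ℕ → ℕ} (hs : sym4 q4 = true) (a b c d e f : V) :
    F4 E q4 b a c d e f = F4 E q4 a b c d e f := by
  have h := (sym4_all hs (E a b c) (E a b d) (E a c d) (E b c d) (E a b e) (E a c e) (E b c e) (E a d e) (E b d e) (E c d e) (E a b f) (E a c f) (E b c f) (E a d f) (E b d f) (E c d f)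
    (hE.b _ _ _) (hE.b _ _ _) (hE.b _ _ _) (hE.b _ _ _) (hE.b _ _ _) (hE.b _ _ _) (hE.b _ _ _) (hE.b _ _ _) (hE.b _ _ _) (hE.b _ _ _) (hE.b _ _ _) (hE.b _ _ _) (hE.b _ _ _) (hE.b _ _ _) (hE.b _ _ _) (hE.b _ _ _)).1
  unfold F4
  rw [← h]
  rw [hE.h213 a b c, hE.h213 a b d, hE.h213 a b e, hE.h213 a b f]

theorem F4_s2 (hE : Sy E) {q4 : ℕ → ℕ → ℕ → ℕ} (hs : sym4 q4 = true) (a b c d e f : V) :
    F4 E q4 a c b d e f = F4 E q4 a b c d e f := by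
  have h := (sym4_all hs (E a b c) (E a b d) (E a c d) (E b c d) (E a b e) (E a c e) (E b c e) (E a d e) (E b d e) (E c d e) (E a b f) (E a c f) (E b c f) (E a d f) (E b d f) (E c d f)
    (hE.b _ _ _) (hE.b _ _ _) (hE.b _ _ _) (hE.b _ _ _) (hE.b _ _ _) (hE.b _ _ _) (hE.b _ _ _) (hE.b _ _ _) (hE.b _ _ _) (hE.b _ _ _) (hE.b _ _ _) (hE.b _ _ _) (hE.b _ _ _) (hE.b _ _ _) (hE.b _ _ _) (hE.b _ _ _)).2.1
  unfold F4
  rw [← h]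
  rw [hE.h132 a b c, hE.h213 b c d, hE.h213 b c e, hE.h213 b c f]

theorem F4_s3 (hE : Sy E) {q4 : ℕ → ℕ → ℕ → ℕ} (hs : sym4 q4 = true) (a b c d e f : V) :
    F4 E q4 a b d c e f = F4 E q4 a b c d e f := by
  have h := (sym4_all hs (E a b c) (E a b d) (E a c d) (E b c d) (E a b e) (E a c e) (E b c e) (E a d e) (E b d e) (E c d e) (E a b f) (E a c f) (E b c f) (E a d f) (E b d f) (E c d f)
    (hE.b _ _ _) (hE.b _ _ _) (hE.b _ _ _) (hE.b _ _ _) (hE.b _ _ _) (hE.b _ _ _) (hE.b _ _ _) (hE.b _ _ _) (hE.b _ _ _) (hE.b _ _ _) (hE.b _ _ _) (hE.b _ _ _) (hE.b _ _ _) (hE.b _ _ _) (hE.b _ _ _) (hE.b _ _ _)).2.2.1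
  unfold F4
  rw [← h]
  rw [hE.h132 a c d, hE.h132 b c d, hE.h213 c d e, hE.h213 c d f]

theorem F4_s4 (hE : Sy E) {q4 : ℕ → ℕ → ℕ → ℕ} (hs : sym4 q4 = true) (a b c d e f : V) :
    F4 E q4 a b c d f e = F4 E q4 a b c d e f := by
  have h := (sym4_all hs (E a b c) (E a b d) (E a c d) (E b c d) (E a b e) (E a c e) (E b c e) (E a d e) (E b d e) (E c d e) (E a b f) (E a c f) (E b c f) (E a d f) (E b d f) (E c d f)
    (hE.b _ _ _) (hE.b _ _ _) (hE.b _ _ _) (hE.b _ _ _) (hE.b _ _ _) (hE.b _ _ _) (hE.b _ _ _) (hE.b _ _ _) (hE.b _ _ _) (hE.b _ _ _) (hE.b _ _ _) (hE.b _ _ _) (hE.b _ _ _) (hE.b _ _ _) (hE.b _ _ _) (hE.b _ _ _)).2.2.2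
  unfold F4
  exact h

theorem F2_s1 (hE : Sy E) {q2 : ℕ → ℕ → ℕ} (hs : sym2 q2 = true) (a b c d e f : V) :
    F2 E q2 b a c d e f = F2 E q2 a b c d e f := by
  have h := (sym2_all hs (E a b c) (E a b d) (E a c d) (E b c d) (E a b e) (E a b f) (E a e f) (E b e f)
    (hE.b _ _ _) (hE.b _ _ _) (hE.b _ _ _) (hE.b _ _ _) (hE.b _ _ _) (hE.b _ _ _) (hE.b _ _ _) (hE.b _ _ _)).1
  unfold F2
  rw [← h, hE.h213 a b c, hE.h213 a b d, hE.h213 a b e, hE.h213 a b f]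

theorem F2_s2 (hE : Sy E) {q2 : ℕ → ℕ → ℕ} (hs : sym2 q2 = true) (a b c d e f : V) :
    F2 E q2 a b d c e f = F2 E q2 a b c d e f := by
  have h := (sym2_all hs (E a b c) (E a b d) (E a c d) (E b c d) (E a b e) (E a b f) (E a e f) (E b e f)
    (hE.b _ _ _) (hE.b _ _ _) (hE.b _ _ _) (hE.b _ _ _) (hE.b _ _ _) (hE.b _ _ _) (hE.b _ _ _) (hE.b _ _ _)).2.1
  unfold F2
  rw [← h, hE.h132 a c d, hE.h132 b c d]

theorem F2_s3 (hE : Sy E) {q2 : ℕ → ℕ → ℕ} (hs : sym2 q2 = true) (a b c d e f : V) :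
    F2 E q2 a b e f c d = F2 E q2 a b c d e f := by
  have h := (sym2_all hs (E a b c) (E a b d) (E a c d) (E b c d) (E a b e) (E a b f) (E a e f) (E b e f)
    (hE.b _ _ _) (hE.b _ _ _) (hE.b _ _ _) (hE.b _ _ _) (hE.b _ _ _) (hE.b _ _ _) (hE.b _ _ _) (hE.b _ _ _)).2.2
  unfold F2
  exact h

theorem F2_s4 (hE : Sy E) {q2 : ℕ → ℕ → ℕ} (hs : sym2 q2 = true) (a b c d e f : V) :
    F2 E q2 a b c d f e = F2 E q2 a b c d e f := by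
  rw [← F2_s3 hE hs a b c d f e, F2_s2 hE hs a b e f c d, F2_s3 hE hs a b c d e f]

theorem L4_sw0 (hE : Sy E) {q4 : ℕ → ℕ → ℕ → ℕ} (hs : sym4 q4 = true) (a b c d e f : V) :
    L4 E q4 b a c d e f = L4 E q4 a b c d e f := by
  unfold L4
  rw [F4_s1 hE hs a b c d e f, F4_s1 hE hs a b c e d f, F4_s1 hE hs a b c f d e, F4_s1 hE hs a b d e c f, F4_s1 hE hs a b d f c e, F4_s1 hE hs a b e f c d, F4_s4 hE hs c d e f a b]
  ring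

theorem L2_sw0 (hE : Sy E) {q2 : ℕ → ℕ → ℕ} (hs : sym2 q2 = true) (a b c d e f : V) :
    L2 E q2 b a c d e f = L2 E q2 a b c d e f := by
  unfold L2
  rw [F2_s1 hE hs a b c d e f, F2_s1 hE hs a b c e d f, F2_s1 hE hs a b c f d e, F2_s2 hE hs c d a b e f, F2_s3 hE hs c d a f b e, F2_s3 hE hs c d a e b f, F2_s2 hE hs c e a b d f, F2_s3 hE hs c e a f b d, F2_s3 hE hs c e a d b f, F2_s2 hE hs c f a b d e, F2_s3 hE hs c f a e b d, F2_s3 hE hs c f a d b e, F2_s2 hE hs d e a b c f, F2_s3 hE hs d e a f b c, F2_s3 hE hs d e a c b f, F2_s2 hE hs d f a b c e, F2_s3 hE hs d f a e b c, F2_s3 hE hs d f a c b e, F2_s2 hE hs e f a b c d, F2_s3 hE hs e f a d b c, F2_s3 hE hs e f a c b d]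
  ring

theorem L4_sw1 (hE : Sy E) {q4 : ℕ → ℕ → ℕ → ℕ} (hs : sym4 q4 = true) (a b c d e f : V) :
    L4 E q4 a c b d e f = L4 E q4 a b c d e f := by
  unfold L4
  rw [F4_s2 hE hs a b c d e f, F4_s2 hE hs a b c e d f, F4_s2 hE hs a b c f d e, F4_s4 hE hs a d e f b c, F4_s1 hE hs b c d e a f, F4_s1 hE hs b c d f a e, F4_s1 hE hs b c e f a d]
  ring

theorem L2_sw1 (hE : Sy E) {q2 : ℕ → ℕ → ℕ} (hs : sym2 q2 = true) (a b c d e f : V) :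
    L2 E q2 a c b d e f = L2 E q2 a b c d e f := by
  unfold L2
  rw [F2_s2 hE hs a d b c e f, F2_s3 hE hs a d b f c e, F2_s3 hE hs a d b e c f, F2_s2 hE hs a e b c d f, F2_s3 hE hs a e b f c d, F2_s3 hE hs a e b d c f, F2_s2 hE hs a f b c d e, F2_s3 hE hs a f b e c d, F2_s3 hE hs a f b d c e, F2_s1 hE hs b c a d e f, F2_s1 hE hs b c a e d f, F2_s1 hE hs b c a f d e, F2_s4 hE hs d e a f b c, F2_s4 hE hs d f a e b c, F2_s4 hE hs e f a d b c]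
  ring

theorem L4_sw2 (hE : Sy E) {q4 : ℕ → ℕ → ℕ → ℕ} (hs : sym4 q4 = true) (a b c d e f : V) :
    L4 E q4 a b d c e f = L4 E q4 a b c d e f := by
  unfold L4
  rw [F4_s3 hE hs a b c d e f, F4_s4 hE hs a b e f c d, F4_s2 hE hs a c d e b f, F4_s2 hE hs a c d f b e, F4_s2 hE hs b c d e a f, F4_s2 hE hs b c d f a e, F4_s1 hE hs c d e f a b]
  ring

theorem L2_sw2 (hE : Sy E) {q2 : ℕ → ℕ → ℕ} (hs : sym2 q2 = true) (a b c d e f : V) :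
    L2 E q2 a b d c e f = L2 E q2 a b c d e f := by
  unfold L2
  rw [F2_s2 hE hs a b c d e f, F2_s3 hE hs a b c f d e, F2_s3 hE hs a b c e d f, F2_s4 hE hs a e b f c d, F2_s4 hE hs a f b e c d, F2_s4 hE hs b e a f c d, F2_s4 hE hs b f a e c d, F2_s1 hE hs c d a b e f, F2_s1 hE hs c d a e b f, F2_s1 hE hs c d a f b e, F2_s4 hE hs e f a b c d]
  ring

theorem L4_sw3 (hE : Sy E) {q4 : ℕ → ℕ → ℕ → ℕ} (hs : sym4 q4 = true) (a b c d e f : V) :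
    L4 E q4 a b c e d f = L4 E q4 a b c d e f := by
  unfold L4
  rw [F4_s4 hE hs a b c f d e, F4_s3 hE hs a b d e c f, F4_s3 hE hs a c d e b f, F4_s2 hE hs a d e f b c, F4_s3 hE hs b c d e a f, F4_s2 hE hs b d e f a c, F4_s2 hE hs c d e f a b]
  ring

theorem L2_sw3 (hE : Sy E) {q2 : ℕ → ℕ → ℕ} (hs : sym2 q2 = true) (a b c d e f : V) :
    L2 E q2 a b c e d f = L2 E q2 a b c d e f := by
  unfold L2
  rw [F2_s4 hE hs a b c f d e, F2_s4 hE hs a c b f d e, F2_s4 hE hs a f b c d e, F2_s4 hE hs b c a f d e, F2_s4 hE hs b f a c d e, F2_s4 hE hs c f a b d e, F2_s1 hE hs d e a b c f, F2_s1 hE hs d e a c b f, F2_s1 hE hs d e a f b c]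
  ring

end
end Pool.Agent.H122R2.N6
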