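import Mathlib

/-! Majorisation of `x ^ p` on `[0,1]` by quartic Hermite interpolants at `1/3`, `2/3`. -/

set_option autoImplicit false

namespace Pool.Agent.H122R2.N6.Maj

/-- a square is positive -/
theorem pow_pos_of_ne {x : ℝ} (h : x ≠ 0) : 0 < x ^ 2 := by positivity

/-- Rolle's theorem, general coefficient. -/
theorem ro (k r : ℝ) (P P' : ℝ → ℝ) (hP : ∀ x, HasDerivAt P (P' x) x) {x y : ℝ} (hx : 0 < x)
    (hxy : x < y) (h1 : k * x ^ r = P x) (h2 : k * y ^ r = P y) :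
    ∃ z, x < z ∧ z < y ∧ k * r * z ^ (r - 1) = P' z := by
  have hd : ∀ z, 0 < z → HasDerivAt (fun y => k * y ^ r - P y) (k * r * z ^ (r - 1) - P' z) z := by
    intro z hz
    have h := ((Real.hasDerivAt_rpow_const (p := r) (Or.inl hz.ne')).const_mul k).sub (hP z)
    rw [mul_assoc]
    exact h
  obtain ⟨z, hz, h⟩ := exists_hasDerivAt_eq_zero (f := fun y => k * y ^ r - P y)
    (f' := fun z => k * r * z ^ (r - 1) - P' z) hxy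
    (fun z hz => (hd z (lt_of_lt_of_le hx hz.1)).continuousAt.continuousWithinAt)
    (by simp only [h1, h2, sub_self]) (fun z hz => hd z (lt_trans hx hz.1))
  exact ⟨z, hz.1, hz.2, by linarith⟩

/-- Rolle's theorem for `x ^ r - P x` with left endpoint possibly `0`. -/
theorem ro0 (r : ℝ) (hr : 0 < r) (P P' : ℝ → ℝ) (hP : ∀ x, HasDerivAt P (P' x) x) {x y : ℝ} (hx : 0 ≤ x)
    (hxy : x < y) (h1 : x ^ r = P x) (h2 : y ^ r = P y) :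
    ∃ z, x < z ∧ z < y ∧ r * z ^ (r - 1) = P' z := by
  have hd : ∀ z, 0 < z → HasDerivAt (fun y => y ^ r - P y) (r * z ^ (r - 1) - P' z) z := by
    intro z hz
    exact (Real.hasDerivAt_rpow_const (p := r) (Or.inl hz.ne')).sub (hP z)
  have hc : Continuous (fun y : ℝ => y ^ r - P y) :=
    (Real.continuous_rpow_const hr.le).sub
      (continuous_iff_continuousAt.mpr fun z => (hP z).continuousAt)
  obtain ⟨z, hz, h⟩ := exists_hasDerivAt_eq_zero (f := fun y => y ^ r - P y)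
    (f' := fun z => r * z ^ (r - 1) - P' z) hxy hc.continuousOn
    (by simp only [h1, h2, sub_self]) (fun z hz => hd z (lt_of_le_of_lt hx hz.1))
  exact ⟨z, hz.1, hz.2, by linarith⟩

/-- four zeros of the first derivative give a zero of the fourth -/
theorem z4 (p : ℝ) (P1 P2 P3 P4 : ℝ → ℝ) (h1 : ∀ x, HasDerivAt P1 (P2 x) x)
    (h2 : ∀ x, HasDerivAt P2 (P3 x) x) (h3 : ∀ x, HasDerivAt P3 (P4 x) x)
    {x1 x2 x3 x4 : ℝ} (hx : 0 < x1) (h12 : x1 < x2) (h23 : x2 < x3) (h34 : x3 < x4)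
    (e1 : p * x1 ^ (p - 1) = P1 x1) (e2 : p * x2 ^ (p - 1) = P1 x2)
    (e3 : p * x3 ^ (p - 1) = P1 x3) (e4 : p * x4 ^ (p - 1) = P1 x4) :
    ∃ z, x1 < z ∧ z < x4 ∧ p * (p - 1) * (p - 1 - 1) * (p - 1 - 1 - 1) * z ^ (p - 1 - 1 - 1 - 1) = P4 z := by
  obtain ⟨y1, a1, b1, f1⟩ := ro _ _ _ _ h1 hx h12 e1 e2
  obtain ⟨y2, a2, b2, f2⟩ := ro _ _ _ _ h1 (hx.trans h12) h23 e2 e3
  obtain ⟨y3, a3, b3, f3⟩ := ro _ _ _ _ h1 ((hx.trans h12).trans h23) h34 e3 e4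
  obtain ⟨w1, c1, d1, g1⟩ := ro _ _ _ _ h2 (hx.trans a1) (b1.trans a2) f1 f2
  obtain ⟨w2, c2, d2, g2⟩ := ro _ _ _ _ h2 ((hx.trans h12).trans a2) (b2.trans a3) f2 f3
  obtain ⟨z, k1, k2, k⟩ := ro _ _ _ _ h3 ((hx.trans a1).trans c1) (d1.trans c2) g1 g2
  exact ⟨z, (a1.trans c1).trans k1, (k2.trans d2).trans b3, k⟩

/-- five zeros of the first derivative give a zero of the fifth -/
theorem z5 (p : ℝ) (P1 P2 P3 P4 P5 : ℝ → ℝ) (h1 : ∀ x, HasDerivAt P1 (P2 x) x)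
    (h2 : ∀ x, HasDerivAt P2 (P3 x) x) (h3 : ∀ x, HasDerivAt P3 (P4 x) x)
    (h4 : ∀ x, HasDerivAt P4 (P5 x) x)
    {x1 x2 x3 x4 x5 : ℝ} (hx : 0 < x1) (h12 : x1 < x2) (h23 : x2 < x3) (h34 : x3 < x4) (h45 : x4 < x5)
    (e1 : p * x1 ^ (p - 1) = P1 x1) (e2 : p * x2 ^ (p - 1) = P1 x2)
    (e3 : p * x3 ^ (p - 1) = P1 x3) (e4 : p * x4 ^ (p - 1) = P1 x4) (e5 : p * x5 ^ (p - 1) = P1 x5) :
    ∃ z, 0 < z ∧ p * (p - 1) * (p - 1 - 1) * (p - 1 - 1 - 1) * (p - 1 - 1 - 1 - 1)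
      * z ^ (p - 1 - 1 - 1 - 1 - 1) = P5 z := by
  obtain ⟨y1, a1, b1, f1⟩ := ro _ _ _ _ h1 hx h12 e1 e2
  obtain ⟨y2, a2, b2, f2⟩ := ro _ _ _ _ h1 (hx.trans h12) h23 e2 e3
  obtain ⟨y3, a3, b3, f3⟩ := ro _ _ _ _ h1 ((hx.trans h12).trans h23) h34 e3 e4
  obtain ⟨y4, a4, b4, f4⟩ := ro _ _ _ _ h1 (((hx.trans h12).trans h23).trans h34) h45 e4 e5
  obtain ⟨w1, c1, d1, g1⟩ := ro _ _ _ _ h2 (hx.trans a1) (b1.trans a2) f1 f2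
  obtain ⟨w2, c2, d2, g2⟩ := ro _ _ _ _ h2 ((hx.trans h12).trans a2) (b2.trans a3) f2 f3
  obtain ⟨w3, c3, d3, g3⟩ := ro _ _ _ _ h2 (((hx.trans h12).trans h23).trans a3) (b3.trans a4) f3 f4
  obtain ⟨v1, k1, l1, m1⟩ := ro _ _ _ _ h3 ((hx.trans a1).trans c1) (d1.trans c2) g1 g2
  obtain ⟨v2, k2, l2, m2⟩ := ro _ _ _ _ h3 (((hx.trans h12).trans a2).trans c2) (d2.trans c3) g2 g3
  obtain ⟨z, n1, n2, n⟩ := ro _ _ _ _ h4 (((hx.trans a1).trans c1).trans k1) (l1.trans k2) m1 m2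
  exact ⟨z, (((hx.trans a1).trans c1).trans k1).trans n1, n⟩

/-- quintic polynomials and their derivatives -/
theorem hq (w0 w1 w2 w3 w4 w5 x : ℝ) :
    HasDerivAt (fun y : ℝ => w0 + w1 * y + w2 * y ^ 2 + w3 * y ^ 3 + w4 * y ^ 4 + w5 * y ^ 5)
      (w1 + (2 * w2) * x + (3 * w3) * x ^ 2 + (4 * w4) * x ^ 3 + (5 * w5) * x ^ 4 + 0 * x ^ 5) x := by
  have h := ((((((hasDerivAt_id x).const_mul w1).const_add w0).add
    ((hasDerivAt_pow 2 x).const_mul w2)).add ((hasDerivAt_pow 3 x).const_mul w3)).add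
    ((hasDerivAt_pow 4 x).const_mul w4)).add ((hasDerivAt_pow 5 x).const_mul w5)
  refine h.congr_deriv ?_
  norm_num
  ring

/-- the general principle: `Φ = x ^ p - W` with zeros `0`, `1/3` (double), `2/3` (double) and `d` -/
theorem nodes5 (p : ℝ) (hp1 : 1 < p) (hp2 : p ≤ 2) (w1 w2 w3 w4 w5 : ℝ)
    (W : ℝ → ℝ) (hW : ∀ y, W y = 0 + w1 * y + w2 * y ^ 2 + w3 * y ^ 3 + w4 * y ^ 4 + w5 * y ^ 5)
    (W1 : ℝ → ℝ) (hW1 : ∀ y, W1 y = w1 + (2 * w2) * y + (3 * w3) * y ^ 2 + (4 * w4) * y ^ 3 + (5 * w5) * y ^ 4)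
    (ha : (1 / 3 : ℝ) ^ p = W (1 / 3)) (ha' : p * (1 / 3 : ℝ) ^ (p - 1) = W1 (1 / 3))
    (hb : (2 / 3 : ℝ) ^ p = W (2 / 3)) (hb' : p * (2 / 3 : ℝ) ^ (p - 1) = W1 (2 / 3))
    (d : ℝ) (hd : 0 < d) (hda : d ≠ 1 / 3) (hdb : d ≠ 2 / 3) (he : d ^ p = W d) : w5 ≤ 0 := by
  have hD : ∀ x, HasDerivAt W (W1 x) x := by
    intro x
    have h := hq 0 w1 w2 w3 w4 w5 x
    have e : W = fun y : ℝ => 0 + w1 * y + w2 * y ^ 2 + w3 * y ^ 3 + w4 * y ^ 4 + w5 * y ^ 5 := by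
      funext y; exact hW y
    rw [e, hW1]
    convert h using 1
    ring
  have hp0 : 0 < p := by linarith
  have h0 : (0 : ℝ) ^ p = W 0 := by rw [Real.zero_rpow hp0.ne', hW]; ring
  have hD1 : ∀ x, HasDerivAt W1 ((2 * w2) + (2 * (3 * w3)) * x + (3 * (4 * w4)) * x ^ 2
      + (4 * (5 * w5)) * x ^ 3 + (5 * 0) * x ^ 4 + 0 * x ^ 5) x := by
    intro x
    have h := hq w1 (2 * w2) (3 * w3) (4 * w4) (5 * w5) 0 x
    have e : W1 = fun y : ℝ => w1 + (2 * w2) * y + (3 * w3) * y ^ 2 + (4 * w4) * y ^ 3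
        + (5 * w5) * y ^ 4 + 0 * y ^ 5 := by
      funext y; rw [hW1]; ring
    rw [e]
    exact h
  have fin : ∀ {x1 x2 x3 x4 x5 : ℝ}, 0 < x1 → x1 < x2 → x2 < x3 → x3 < x4 → x4 < x5 →
      p * x1 ^ (p - 1) = W1 x1 → p * x2 ^ (p - 1) = W1 x2 → p * x3 ^ (p - 1) = W1 x3 →
      p * x4 ^ (p - 1) = W1 x4 → p * x5 ^ (p - 1) = W1 x5 → w5 ≤ 0 := by
    intro x1 x2 x3 x4 x5 hx h12 h23 h34 h45 e1 e2 e3 e4 e5
    obtain ⟨z, hz, h⟩ := z5 p W1 _ _ _ _ hD1 (hq _ _ _ _ _ _) (hq _ _ _ _ _ _) (hq _ _ _ _ _ _)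
      hx h12 h23 h34 h45 e1 e2 e3 e4 e5
    have hpos : 0 < z ^ (p - 1 - 1 - 1 - 1 - 1) := Real.rpow_pos_of_pos hz _
    have hneg : p * (p - 1) * (p - 1 - 1) * (p - 1 - 1 - 1) * (p - 1 - 1 - 1 - 1) ≤ 0 := by
      have a1 : 0 ≤ p * (p - 1) := by nlinarith
      have a2 : 0 ≤ (p - 1 - 1 - 1) * (p - 1 - 1 - 1 - 1) := by nlinarith
      have a3 : p * (p - 1) * (p - 1 - 1) ≤ 0 := mul_nonpos_of_nonneg_of_nonpos a1 (by linarith)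
      have : p * (p - 1) * (p - 1 - 1) * (p - 1 - 1 - 1) * (p - 1 - 1 - 1 - 1)
          = (p * (p - 1) * (p - 1 - 1)) * ((p - 1 - 1 - 1) * (p - 1 - 1 - 1 - 1)) := by ring
      rw [this]
      exact mul_nonpos_of_nonpos_of_nonneg a3 a2
    have h2 := mul_nonpos_of_nonpos_of_nonneg hneg hpos.le
    rw [h] at h2
    nlinarith
  rcases lt_or_gt_of_ne hda with h | h
  · obtain ⟨z1, a1, b1, c1⟩ := ro0 p hp0 W W1 hD le_rfl hd h0 he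
    obtain ⟨z2, a2, b2, c2⟩ := ro0 p hp0 W W1 hD hd.le h he ha
    obtain ⟨z3, a3, b3, c3⟩ := ro0 p hp0 W W1 hD (by norm_num) (by norm_num) ha hb
    exact fin a1 (b1.trans a2) b2 a3 b3 c1 c2 ha' c3 hb'
  · obtain ⟨z1, a1, b1, c1⟩ := ro0 p hp0 W W1 hD le_rfl (by norm_num) h0 ha
    rcases lt_or_gt_of_ne hdb with h' | h'
    · obtain ⟨z2, a2, b2, c2⟩ := ro0 p hp0 W W1 hD (by norm_num) h ha he
      obtain ⟨z3, a3, b3, c3⟩ := ro0 p hp0 W W1 hD hd.le h' he hb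
      exact fin a1 b1 a2 (b2.trans a3) b3 c1 ha' c2 c3 hb'
    · obtain ⟨z2, a2, b2, c2⟩ := ro0 p hp0 W W1 hD (by norm_num) (by norm_num) ha hb
      obtain ⟨z3, a3, b3, c3⟩ := ro0 p hp0 W W1 hD (by norm_num) h' hb he
      exact fin a1 b1 a2 b2 a3 c1 ha' c2 hb' c3

theorem nodes4 (p : ℝ) (hp1 : 2 ≤ p) (hp2 : p ≤ 3) (w0 w1 w2 w3 w4 : ℝ)
    (W : ℝ → ℝ) (hW : ∀ y, W y = w0 + w1 * y + w2 * y ^ 2 + w3 * y ^ 3 + w4 * y ^ 4)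
    (W1 : ℝ → ℝ) (hW1 : ∀ y, W1 y = w1 + (2 * w2) * y + (3 * w3) * y ^ 2 + (4 * w4) * y ^ 3)
    (ha : (1 / 3 : ℝ) ^ p = W (1 / 3)) (ha' : p * (1 / 3 : ℝ) ^ (p - 1) = W1 (1 / 3))
    (hb : (2 / 3 : ℝ) ^ p = W (2 / 3)) (hb' : p * (2 / 3 : ℝ) ^ (p - 1) = W1 (2 / 3))
    (d : ℝ) (hd : 0 ≤ d) (hda : d ≠ 1 / 3) (hdb : d ≠ 2 / 3) (he : d ^ p = W d) : w4 ≤ 0 := by
  have hD : ∀ x, HasDerivAt W (W1 x) x := by
    intro x
    have h := hq w0 w1 w2 w3 w4 0 x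
    have e : W = fun y : ℝ => w0 + w1 * y + w2 * y ^ 2 + w3 * y ^ 3 + w4 * y ^ 4 + 0 * y ^ 5 := by
      funext y; rw [hW]; ring
    rw [e, hW1]
    convert h using 1
    ring
  have hp0 : 0 < p := by linarith
  have hD1 : ∀ x, HasDerivAt W1 ((2 * w2) + (2 * (3 * w3)) * x + (3 * (4 * w4)) * x ^ 2
      + (4 * 0) * x ^ 3 + (5 * 0) * x ^ 4 + 0 * x ^ 5) x := by
    intro x
    have h := hq w1 (2 * w2) (3 * w3) (4 * w4) 0 0 x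
    have e : W1 = fun y : ℝ => w1 + (2 * w2) * y + (3 * w3) * y ^ 2 + (4 * w4) * y ^ 3
        + 0 * y ^ 4 + 0 * y ^ 5 := by
      funext y; rw [hW1]; ring
    rw [e]
    exact h
  have fin : ∀ {x1 x2 x3 x4 : ℝ}, 0 < x1 → x1 < x2 → x2 < x3 → x3 < x4 →
      p * x1 ^ (p - 1) = W1 x1 → p * x2 ^ (p - 1) = W1 x2 → p * x3 ^ (p - 1) = W1 x3 →
      p * x4 ^ (p - 1) = W1 x4 → w4 ≤ 0 := by
    intro x1 x2 x3 x4 hx h12 h23 h34 e1 e2 e3 e4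
    obtain ⟨z, hz, _, h⟩ := z4 p W1 _ _ _ hD1 (hq _ _ _ _ _ _) (hq _ _ _ _ _ _)
      hx h12 h23 h34 e1 e2 e3 e4
    have hpos : 0 < z ^ (p - 1 - 1 - 1 - 1) := Real.rpow_pos_of_pos (hx.trans hz) _
    have hneg : p * (p - 1) * (p - 1 - 1) * (p - 1 - 1 - 1) ≤ 0 := by
      have a1 : 0 ≤ p * (p - 1) := by nlinarith
      have a3 : 0 ≤ p * (p - 1) * (p - 1 - 1) := mul_nonneg a1 (by linarith)
      exact mul_nonpos_of_nonneg_of_nonpos a3 (by linarith)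
    have h2 := mul_nonpos_of_nonpos_of_nonneg hneg hpos.le
    rw [h] at h2
    nlinarith
  rcases lt_or_gt_of_ne hda with h | h
  · obtain ⟨z1, a1, b1, c1⟩ := ro0 p hp0 W W1 hD hd h he ha
    obtain ⟨z2, a2, b2, c2⟩ := ro0 p hp0 W W1 hD (by norm_num) (by norm_num) ha hb
    exact fin (lt_of_le_of_lt hd a1) b1 a2 b2 c1 ha' c2 hb'
  · rcases lt_or_gt_of_ne hdb with h' | h'
    · obtain ⟨z2, a2, b2, c2⟩ := ro0 p hp0 W W1 hD (by norm_num) h ha he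
      obtain ⟨z3, a3, b3, c3⟩ := ro0 p hp0 W W1 hD hd h' he hb
      exact fin (by norm_num) a2 (b2.trans a3) b3 ha' c2 c3 hb'
    · obtain ⟨z2, a2, b2, c2⟩ := ro0 p hp0 W W1 hD (by norm_num) (by norm_num) ha hb
      obtain ⟨z3, a3, b3, c3⟩ := ro0 p hp0 W W1 hD (by norm_num) h' hb he
      exact fin (by norm_num) a2 b2 a3 ha' c2 hb' c3

end Pool.Agent.H122R2.N6.Maj
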