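import Pool.Agent.H122R2.N6.Maj

/-! Majorisation of `x ^ p` on `[0,1]`: the explicit majorants. -/

set_option autoImplicit false

namespace Pool.Agent.H122R2.N6.Maj

noncomputable def U (p q : ℝ) : ℝ := 27 * (q - 1) - 18 * p - 9 / 2 * (p * q)
noncomputable def Vv (p q : ℝ) : ℝ := 27 / 2 * (p * q) - 54 * (q - 1) + 27 * p

/-- the majorant, divided by `(1/3)^p` -/
noncomputable def MM (p q κ d : ℝ) : ℝ :=
  (2 - q) + 3 * (q - 1) * d + (d - 1 / 3) * (d - 2 / 3) * (U p q + Vv p q * d)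
    + κ * ((d - 1 / 3) * (d - 2 / 3)) ^ 2

theorem third (p : ℝ) : (2 / 3 : ℝ) ^ p = (1 / 3 : ℝ) ^ p * 2 ^ p := by
  rw [← Real.mul_rpow (by norm_num) (by norm_num)]
  norm_num

theorem third' (p : ℝ) : (1 / 3 : ℝ) ^ (p - 1) = 3 * (1 / 3 : ℝ) ^ p := by
  rw [Real.rpow_sub_one (by norm_num)]
  ring

theorem third'' (p : ℝ) : (2 / 3 : ℝ) ^ (p - 1) = 3 / 2 * ((1 / 3 : ℝ) ^ p * 2 ^ p) := by
  rw [Real.rpow_sub_one (by norm_num), third]
  ring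

theorem maj5 (p κ : ℝ) (hp1 : 1 < p) (hp2 : p ≤ 2)
    (h0 : 0 ≤ (2 - (2 : ℝ) ^ p) + 2 / 9 * U p (2 ^ p) + 4 / 81 * κ) (d : ℝ) (hd : 0 ≤ d) :
    d ^ p ≤ (1 / 3 : ℝ) ^ p * MM p (2 ^ p) κ d := by
  have e1 := third p
  have e2 := third' p
  have e3 := third'' p
  have hθ : 0 < (1 / 3 : ℝ) ^ p := Real.rpow_pos_of_pos (by norm_num) _
  set q : ℝ := (2 : ℝ) ^ p with hq
  set θ : ℝ := (1 / 3 : ℝ) ^ p with hθd
  have hp0 : 0 < p := by linarith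
  rcases hd.eq_or_lt with h | hd'
  · rw [← h, Real.zero_rpow hp0.ne']
    refine mul_nonneg hθ.le ?_
    unfold MM
    nlinarith
  by_cases ha : d = 1 / 3
  · rw [ha, ← hθd]
    unfold MM
    ring_nf
    exact le_rfl
  by_cases hb : d = 2 / 3
  · rw [hb, e1]
    unfold MM
    ring_nf
    exact le_rfl
  set κ0 : ℝ := -(81 / 4 * ((2 - q) + 2 / 9 * U p q)) with hκ0
  have hκ : κ0 ≤ κ := by rw [hκ0]; linarith
  have hden : 0 < d * ((d - 1 / 3) * (d - 2 / 3)) ^ 2 := by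
    refine mul_pos hd' (pow_pos_of_ne ?_)
    exact mul_ne_zero (sub_ne_zero.mpr ha) (sub_ne_zero.mpr hb)
  set c : ℝ := (d ^ p - θ * MM p q κ0 d) / (d * ((d - 1 / 3) * (d - 2 / 3)) ^ 2) with hc
  have hcd : d ^ p = θ * MM p q κ0 d + c * (d * ((d - 1 / 3) * (d - 2 / 3)) ^ 2) := by
    rw [hc, div_mul_cancel₀ _ hden.ne']
    ring
  have hc0 : c ≤ 0 := by
    refine nodes5 p hp1 hp2
      (θ * (3 * (q - 1) + 2 / 9 * Vv p q - U p q - 4 / 9 * κ0) + 4 / 81 * c)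
      (θ * (U p q - Vv p q + 13 / 9 * κ0) - 4 / 9 * c)
      (θ * (Vv p q - 2 * κ0) + 13 / 9 * c)
      (θ * κ0 - 2 * c) c
      (fun y => θ * MM p q κ0 y + c * (y * ((y - 1 / 3) * (y - 2 / 3)) ^ 2)) ?_
      (fun y => (θ * (3 * (q - 1) + 2 / 9 * Vv p q - U p q - 4 / 9 * κ0) + 4 / 81 * c)
        + (2 * (θ * (U p q - Vv p q + 13 / 9 * κ0) - 4 / 9 * c)) * y
        + (3 * (θ * (Vv p q - 2 * κ0) + 13 / 9 * c)) * y ^ 2
        + (4 * (θ * κ0 - 2 * c)) * y ^ 3 + (5 * c) * y ^ 4) (fun y => rfl) ?_ ?_ ?_ ?_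
      d hd' ha hb hcd
    · intro y
      show θ * MM p q κ0 y + c * (y * ((y - 1 / 3) * (y - 2 / 3)) ^ 2) = _
      unfold MM
      rw [hκ0]
      ring
    · show θ = θ * MM p q κ0 (1 / 3) + c * (1 / 3 * ((1 / 3 - 1 / 3) * (1 / 3 - 2 / 3)) ^ 2)
      unfold MM
      ring
    · rw [e2]
      unfold U Vv
      ring
    · rw [e1]
      show θ * q = θ * MM p q κ0 (2 / 3) + c * (2 / 3 * ((2 / 3 - 1 / 3) * (2 / 3 - 2 / 3)) ^ 2)
      unfold MM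
      ring
    · rw [e3]
      unfold U Vv
      ring
  have h1 : d ^ p ≤ θ * MM p q κ0 d := by
    rw [hcd]
    have := mul_nonpos_of_nonpos_of_nonneg hc0 hden.le
    linarith
  refine h1.trans (mul_le_mul_of_nonneg_left ?_ hθ.le)
  unfold MM
  have : 0 ≤ (κ - κ0) * ((d - 1 / 3) * (d - 2 / 3)) ^ 2 := mul_nonneg (by linarith) (sq_nonneg _)
  linarith

theorem maj4 (p κ : ℝ) (hp1 : 2 ≤ p) (hp2 : p ≤ 3) (hκ : 0 ≤ κ) (d : ℝ) (hd : 0 ≤ d) :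
    d ^ p ≤ (1 / 3 : ℝ) ^ p * MM p (2 ^ p) κ d := by
  have e1 := third p
  have e2 := third' p
  have e3 := third'' p
  have hθ : 0 < (1 / 3 : ℝ) ^ p := Real.rpow_pos_of_pos (by norm_num) _
  set q : ℝ := (2 : ℝ) ^ p with hq
  set θ : ℝ := (1 / 3 : ℝ) ^ p with hθd
  have hp0 : 0 < p := by linarith
  by_cases ha : d = 1 / 3
  · rw [ha, ← hθd]
    unfold MM
    ring_nf
    exact le_rfl
  by_cases hb : d = 2 / 3
  · rw [hb, e1]
    unfold MM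
    ring_nf
    exact le_rfl
  have hden : 0 < ((d - 1 / 3) * (d - 2 / 3)) ^ 2 :=
    pow_pos_of_ne (mul_ne_zero (sub_ne_zero.mpr ha) (sub_ne_zero.mpr hb))
  set c : ℝ := (d ^ p - θ * MM p q 0 d) / ((d - 1 / 3) * (d - 2 / 3)) ^ 2 with hc
  have hcd : d ^ p = θ * MM p q 0 d + c * ((d - 1 / 3) * (d - 2 / 3)) ^ 2 := by
    rw [hc, div_mul_cancel₀ _ hden.ne']
    ring
  have hc0 : c ≤ 0 := by
    refine nodes4 p hp1 hp2
      (θ * ((2 - q) + 2 / 9 * U p q) + 4 / 81 * c)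
      (θ * (3 * (q - 1) + 2 / 9 * Vv p q - U p q) - 4 / 9 * c)
      (θ * (U p q - Vv p q) + 13 / 9 * c)
      (θ * Vv p q - 2 * c) c
      (fun y => θ * MM p q 0 y + c * ((y - 1 / 3) * (y - 2 / 3)) ^ 2) ?_
      (fun y => (θ * (3 * (q - 1) + 2 / 9 * Vv p q - U p q) - 4 / 9 * c)
        + (2 * (θ * (U p q - Vv p q) + 13 / 9 * c)) * y
        + (3 * (θ * Vv p q - 2 * c)) * y ^ 2 + (4 * c) * y ^ 3) (fun y => rfl) ?_ ?_ ?_ ?_
      d hd ha hb hcd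
    · intro y
      show θ * MM p q 0 y + c * ((y - 1 / 3) * (y - 2 / 3)) ^ 2 = _
      unfold MM
      ring
    · show θ = θ * MM p q 0 (1 / 3) + c * ((1 / 3 - 1 / 3) * (1 / 3 - 2 / 3)) ^ 2
      unfold MM
      ring
    · rw [e2]
      unfold U Vv
      ring
    · rw [e1]
      show θ * q = θ * MM p q 0 (2 / 3) + c * ((2 / 3 - 1 / 3) * (2 / 3 - 2 / 3)) ^ 2
      unfold MM
      ring
    · rw [e3]
      unfold U Vv
      ring
  have h1 : d ^ p ≤ θ * MM p q 0 d := by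
    rw [hcd]
    have := mul_nonpos_of_nonpos_of_nonneg hc0 hden.le
    linarith
  refine h1.trans (mul_le_mul_of_nonneg_left ?_ hθ.le)
  unfold MM
  have : 0 ≤ κ * ((d - 1 / 3) * (d - 2 / 3)) ^ 2 := mul_nonneg hκ (sq_nonneg _)
  linarith

end Pool.Agent.H122R2.N6.Maj
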