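import Pool.Agent.H122R2.N6.FinA
import Pool.Agent.H122R2.N6.Count

/-! `54 n |G| ≤ 5 n^4 + 48 N_1(G)` for `K_4^3`-free 3-graphs, and its complementary form. -/

set_option autoImplicit false
open Finset
open scoped Classical

namespace Pool.Agent.H122R2.N6

theorem one_edge (n : ℕ) (G : Finset (Finset (Fin n))) (h3 : ∀ e ∈ G, e.card = 3)
    (hF : K43Free G) : 54 * n * G.card ≤ 5 * n ^ 4 + 48 * oneEdge G := by
  have hE := tri_sy G
  have hK := tri_noK4 h3 hF
  have hm := A.main hE hK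
  have h6 := six_card_le h3
  have h1 := one_tuples_le h3
  rw [Fintype.card_fin] at hm
  set t := tri G with ht
  -- the objective
  have hg : ∀ a b c d : Fin n, (A.gg (t a b c + t a b d + t a c d + t b c d) : ℤ)
      = 9 * ((t a b c : ℤ) + t a b d + t a c d + t b c d)
        - 8 * ((if t a b c + t a b d + t a c d + t b c d = 1 then 1 else 0 : ℕ) : ℤ) := by
    intro a b c d
    have hk := hK a b c d
    rcases hE.b a b c with e1 | e1 <;> rcases hE.b a b d with e2 | e2 <;>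
      rcases hE.b a c d with e3 | e3 <;> rcases hE.b b c d with e4 | e4 <;>
      rw [e1, e2, e3, e4] at hk ⊢ <;>
      first
        | (exfalso; exact absurd hk (by decide))
        | (simp [A.gg])
  simp only [hg] at hm
  simp only [sum_sub_distrib, sum_add_distrib, ← mul_sum] at hm
  have n1 : ∑ a : Fin n, ∑ b : Fin n, ∑ c : Fin n, ∑ _d : Fin n, (t a b c : ℤ)
      = n * ∑ a : Fin n, ∑ b : Fin n, ∑ c : Fin n, (t a b c : ℤ) := by
    simp only [sum_const, card_univ, Fintype.card_fin, nsmul_eq_mul, mul_sum]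
  have n2 : ∑ a : Fin n, ∑ b : Fin n, ∑ _c : Fin n, ∑ d : Fin n, (t a b d : ℤ)
      = n * ∑ a : Fin n, ∑ b : Fin n, ∑ c : Fin n, (t a b c : ℤ) := by
    simp only [sum_const, card_univ, Fintype.card_fin, nsmul_eq_mul, mul_sum]
  have n3 : ∑ a : Fin n, ∑ _b : Fin n, ∑ c : Fin n, ∑ d : Fin n, (t a c d : ℤ)
      = n * ∑ a : Fin n, ∑ b : Fin n, ∑ c : Fin n, (t a b c : ℤ) := by
    simp only [sum_const, card_univ, Fintype.card_fin, nsmul_eq_mul, mul_sum]
  have n4 : ∑ _a : Fin n, ∑ b : Fin n, ∑ c : Fin n, ∑ d : Fin n, (t b c d : ℤ)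
      = n * ∑ a : Fin n, ∑ b : Fin n, ∑ c : Fin n, (t a b c : ℤ) := by
    simp only [sum_const, card_univ, Fintype.card_fin, nsmul_eq_mul, mul_sum]
  rw [n1, n2, n3, n4] at hm
  have h6' : (6 * G.card : ℤ) ≤ ∑ a : Fin n, ∑ b : Fin n, ∑ c : Fin n, (t a b c : ℤ) := by
    exact_mod_cast h6
  have h1' : ∑ a : Fin n, ∑ b : Fin n, ∑ c : Fin n, ∑ d : Fin n,
      ((if t a b c + t a b d + t a c d + t b c d = 1 then 1 else 0 : ℕ) : ℤ)
        ≤ 24 * (oneEdge G : ℤ) := by
    exact_mod_cast h1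
  have h7 := mul_le_mul_of_nonneg_left h6' (Nat.cast_nonneg (α := ℤ) n)
  have goal : (54 * n * G.card : ℤ) ≤ 5 * (n : ℤ) ^ 4 + 48 * (oneEdge G : ℤ) := by
    nlinarith [hm, h7, h1']
  exact_mod_cast goal

end Pool.Agent.H122R2.N6
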