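import Pool.Agent.H122R2.N6.Util

set_option autoImplicit false
set_option maxRecDepth 100000
set_option maxHeartbeats 4000000
open Finset

namespace Pool.Agent.H122R2.N6

section
variable {V : Type} (E : V → V → V → ℕ)

theorem K4l_eq (q4 : ℕ → ℕ → ℕ → ℕ) (h132 : ∀ x y z, E x z y = E x y z)
    (h231 : ∀ x y z, E y z x = E x y z) (h213 : ∀ x y z, E y x z = E x y z)
    (h312 : ∀ x y z, E z x y = E x y z) (a b c d e f : V) :
    K4l E q4 a b c d e f = L4 E q4 a b c d e f := by
  unfold K4l L4 leaf4 F4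
  simp only [Nat.add_eq, h132 a b c, h231 a b c, h213 a b c, h312 a b c, h132 a b d, h231 a b d, h213 a b d, h312 a b d, h132 a b e, h231 a b e, h213 a b e, h312 a b e, h132 a b f, h231 a b f, h213 a b f, h312 a b f, h132 a c d, h231 a c d, h213 a c d, h312 a c d, h132 a c e, h231 a c e, h213 a c e, h312 a c e, h132 a c f, h231 a c f, h213 a c f, h312 a c f, h132 a d e, h231 a d e, h213 a d e, h312 a d e, h132 a d f, h231 a d f, h213 a d f, h312 a d f, h132 a e f, h231 a e f, h213 a e f, h312 a e f, h132 b c d, h231 b c d, h213 b c d, h312 b c d, h132 b c e, h231 b c e, h213 b c e, h312 b c e, h132 b c f, h231 b c f, h213 b c f, h312 b c f, h132 b d e, h231 b d e, h213 b d e, h312 b d e, h132 b d f, h231 b d f, h213 b d f, h312 b d f, h132 b e f, h231 b e f, h213 b e f, h312 b e f, h132 c d e, h231 c d e, h213 c d e, h312 c d e, h132 c d f, h231 c d f, h213 c d f, h312 c d f, h132 c e f, h231 c e f, h213 c e f, h312 c e f, h132 d e f, h231 d e f, h213 d e f, h312 d e f]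

theorem K2l_eq (q2 : ℕ → ℕ → ℕ) (h132 : ∀ x y z, E x z y = E x y z)
    (h231 : ∀ x y z, E y z x = E x y z) (h213 : ∀ x y z, E y x z = E x y z)
    (h312 : ∀ x y z, E z x y = E x y z) (a b c d e f : V) :
    K2l E q2 a b c d e f = L2 E q2 a b c d e f := by
  unfold K2l L2 leaf2 F2
  simp only [Nat.add_eq, h132 a b c, h231 a b c, h213 a b c, h312 a b c, h132 a b d, h231 a b d, h213 a b d, h312 a b d, h132 a b e, h231 a b e, h213 a b e, h312 a b e, h132 a b f, h231 a b f, h213 a b f, h312 a b f, h132 a c d, h231 a c d, h213 a c d, h312 a c d, h132 a c e, h231 a c e, h213 a c e, h312 a c e, h132 a c f, h231 a c f, h213 a c f, h312 a c f, h132 a d e, h231 a d e, h213 a d e, h312 a d e, h132 a d f, h231 a d f, h213 a d f, h312 a d f, h132 a e f, h231 a e f, h213 a e f, h312 a e f, h132 b c d, h231 b c d, h213 b c d, h312 b c d, h132 b c e, h231 b c e, h213 b c e, h312 b c e, h132 b c f, h231 b c f, h213 b c f, h312 b c f, h132 b d e, h231 b d e, h213 b d e, h312 b d e, h132 b d f, h231 b d f, h213 b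 d f, h312 b d f, h132 b e f, h231 b e f, h213 b e f, h312 b e f, h132 c d e, h231 c d e, h213 c d e, h312 c d e, h132 c d f, h231 c d f, h213 c d f, h312 c d f, h132 c e f, h231 c e f, h213 c e f, h312 c e f, h132 d e f, h231 d e f, h213 d e f, h312 d e f]

end
end Pool.Agent.H122R2.N6
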