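import Pool.Agent.H122R2.N6.Walk
import Pool.Agent.H122R2.N6.SymDefs

set_option autoImplicit false
set_option maxRecDepth 100000
open Finset

namespace Pool.Agent.H122R2.N6

def Bt (n : ℕ) : Prop := n = 0 ∨ n = 1

theorem B2_true {f : ℕ → Bool} (h : B2 f = true) {n : ℕ} (hn : Bt n) : f n = true := by
  have h' : (f 0 && f 1) = true := h
  rw [Bool.and_eq_true] at h'
  rcases hn with rfl | rfl
  exacts [h'.1, h'.2]

theorem nsum_eq (n : ℕ) (f : ℕ → ℕ) : nsum n f = ∑ k ∈ range n, f k := by
  induction n with
  | zero => rfl
  | succ n ih => rw [sum_range_succ, ← ih]; rfl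

theorem nall_true {n : ℕ} {f : ℕ → Bool} (h : nall n f = true) : ∀ k < n, f k = true := by
  induction n with
  | zero => intro k hk; omega
  | succ n ih =>
    have h' : (nall n f && f n) = true := h
    rw [Bool.and_eq_true] at h'
    intro k hk
    rcases Nat.lt_succ_iff_lt_or_eq.mp hk with hk | rfl
    · exact ih h'.1 k hk
    · exact h'.2

/-- the four triples of a quadruple are not all present -/
def Fr (p q r s : ℕ) : Prop := k4b p q r s = false

theorem or_false_left {a b : Bool} (h : (a || b) = true) (ha : a = false) : b = true := by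
  cases a
  · exact h
  · exact absurd ha (by decide)

end Pool.Agent.H122R2.N6
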